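import Pool.Agent.U259.WD.Box

/-!
# Chains of `p`-subgroups of the base group of `G ≀ C_q` with large stabilisers
-/

set_option autoImplicit false
set_option linter.unusedSectionVars false

open scoped Classical BigOperators

noncomputable section

namespace Pool.Agent.U259.WD

open Pool.Agent.Y63.NV
open Pool.Agent.Y63.KR
open Pool.Agent.N19.RB (piS mem_piS isPGroup_piS)
open Pool.Agent.N85.WM (Wr Base shiftHom mem_base)
open Pool.Agent.R674.Ce (chs wt Sp chs_eq chs_sub')
open SemidirectProduct (inl inr)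

variable {q : ℕ} [hq : Fact q.Prime] {G : Type} [Group G]

/-- the generator of the cyclic group, as an element of the wreath product -/
abbrev tt (q : ℕ) (G : Type) [Group G] : Wr q G := inr (Multiplicative.ofAdd (1 : ZMod q))

/-- the elements `(a, 1, …, 1) t` -/
def ga (a : G) : Wr q G := inl (fun i => if i = 0 then a else 1) * tt q G

theorem inl_tt (g : Wr q G) (h : g.right = Multiplicative.ofAdd 1) :
    (inl g.left * tt q G : Wr q G) = g := by
  unfold tt
  rw [← h]
  exact SemidirectProduct.inl_left_mul_inr_right g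

theorem conj_ga (n : ZMod q → G) (a : G) : inl n * ga a * (inl n)⁻¹ =
    inl (fun i => n i * (if i = 0 then a else 1) * (n (i - 1))⁻¹) * tt q G := by
  apply SemidirectProduct.ext
  · funext i
    unfold ga
    rw [← map_inv, mul_left_apply, mul_left_apply, mul_left_apply, mul_left_apply]
    simp
  · unfold ga
    simp

/-- the subgroup `L ≀ C_q` of `G ≀ C_q` -/
def WW (q : ℕ) [Fact q.Prime] {G : Type} [Group G] (L : Subgroup G) : Subgroup (Wr q G) where
  carrier := {x | ∀ i, x.left i ∈ L}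
  mul_mem' := by
    intro a b ha hb i
    rw [mul_left_apply]
    exact L.mul_mem (ha i) (hb _)
  one_mem' := fun i => L.one_mem
  inv_mem' := by
    intro a ha i
    rw [inv_left_apply]
    exact L.inv_mem (ha _)

theorem mem_WW {L : Subgroup G} {x : Wr q G} : x ∈ WW q L ↔ ∀ i, x.left i ∈ L := Iff.rfl

/-- the diagonal product -/
def dg' (Q : Subgroup G) : Subgroup (Wr q G) := box fun _ => Q

theorem pc_dg (Q : Subgroup G) (i : ZMod q) : pc (dg' Q) i = Q := pc_box _ i

theorem dg_inj : Function.Injective (dg' : Subgroup G → Subgroup (Wr q G)) := by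
  intro Q Q' h
  rw [← pc_dg Q (0 : ZMod q), h, pc_dg]

theorem dg_mono {Q Q' : Subgroup G} : (dg' Q : Subgroup (Wr q G)) ≤ dg' Q' ↔ Q ≤ Q' := by
  constructor
  · intro h
    rw [← pc_dg Q (0 : ZMod q), ← pc_dg Q' (0 : ZMod q)]
    exact pc_mono h 0
  · intro h
    exact box_mono fun _ => h

theorem conj_dg (x : Wr q G) (Q : Subgroup G) :
    conjSub x (dg' Q) = dg' Q ↔ ∀ i, conjSub (x.left i) Q = Q := by
  unfold dg'
  rw [conj_box]
  constructor
  · intro h i
    have h1 := congrArg (fun P => pc P i) h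
    change pc (box _) i = pc (box _) i at h1
    rw [pc_box, pc_box] at h1
    exact h1
  · intro h
    congr 1
    funext i
    exact h i

theorem stab_dg (τ : Set (Subgroup G)) :
    chainStabilizer ((dg' : Subgroup G → Subgroup (Wr q G)) '' τ) = WW q (chainStabilizer τ) := by
  ext x
  rw [mem_chainStabilizer, mem_WW]
  constructor
  · intro h i
    rw [mem_chainStabilizer]
    intro Q hQ
    exact (conj_dg x Q).1 (h _ ⟨Q, hQ, rfl⟩) i
  · rintro h _ ⟨Q, hQ, rfl⟩
    rw [conj_dg]
    intro i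
    exact mem_chainStabilizer.1 (h i) Q hQ

theorem ga_mem {L : Subgroup G} {a : G} : (ga a : Wr q G) ∈ WW q L ↔ a ∈ L := by
  have : NeZero q := ⟨hq.out.ne_zero⟩
  have h : ∀ i, (ga a : Wr q G).left i = if i = 0 then a else 1 := by
    intro i
    unfold ga
    rw [mul_left_apply]
    simp
  rw [mem_WW]
  constructor
  · intro h1
    have := h1 0
    rw [h, if_pos rfl] at this
    exact this
  · intro h1 i
    rw [h]
    split_ifs
    · exact h1
    · exact L.one_mem

/-- a closed subgroup normalised by `(a, 1, …, 1) t` is a diagonal product -/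
theorem closed_ga {P : Subgroup (Wr q G)} (hP : cl P = P) {a : G} (h : conjSub (ga a) P = P) :
    P = dg' (pc P 0) := by
  have : NeZero q := ⟨hq.out.ne_zero⟩
  have hr : (ga a : Wr q G).right.toAdd = 1 := by
    unfold ga
    simp
  have h1 : ∀ i : ZMod q, i ≠ 0 → pc P i = pc P (i - 1) := by
    intro i hi
    have h2 := pc_conj (ga a) P i
    rw [h, hr] at h2
    have h3 : (ga a : Wr q G).left i = 1 := by
      unfold ga
      rw [mul_left_apply]
      simp [hi]
    rw [h3, conjSub_one] at h2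
    exact h2
  have h2 : ∀ k : ℕ, k < q → pc P (k : ZMod q) = pc P 0 := by
    intro k
    induction k with
    | zero =>
      intro _
      rw [Nat.cast_zero]
    | succ k ih =>
      intro hk
      rw [h1, Nat.cast_succ, add_sub_cancel_right]
      · exact ih (by omega)
      · intro h3
        rw [ZMod.natCast_eq_zero_iff] at h3
        exact absurd (Nat.le_of_dvd (Nat.succ_pos k) h3) (by omega)
  have h3 : ∀ i : ZMod q, pc P i = pc P 0 := by
    intro i
    rw [← ZMod.natCast_zmod_val i]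
    exact h2 _ (ZMod.val_lt i)
  conv_lhs => rw [← hP]
  unfold cl dg'
  congr 1
  funext i
  exact h3 i

variable {p : ℕ} [hp : Fact p.Prime] [Finite G]

/-- the sum over the chains of closed subgroups stabilised by `g` -/
def Psi (p : ℕ) (u : Subgroup (Wr q G) → ℤ) (g : Wr q G) [Fintype (Set (Subgroup (Wr q G)))] : ℤ :=
  ∑ σ : Set (Subgroup (Wr q G)),
    if (σ ⊆ XC p q G ∧ IsChain (· ≤ ·) σ) ∧ g ∈ chainStabilizer σ then
      (-1) ^ σ.ncard * u (chainStabilizer σ) else 0

theorem XC_conj {y : Wr q G} {P : Subgroup (Wr q G)} (h : P ∈ XC p q G) :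
    conjSub y P ∈ XC p q G := by
  obtain ⟨⟨h1, h2, h3⟩, h4⟩ := h
  refine ⟨⟨h1.map _, conjSub_ne_bot h2, ?_⟩, ?_⟩
  · rw [← Pool.Agent.R674.Ce.conjSub_normal y (Base q G)]
    exact conjSub_le h3
  · rw [← conj_cl, h4]

/-- conjugation as a permutation of the set of subgroups -/
def cE (y : Wr q G) : Subgroup (Wr q G) ≃ Subgroup (Wr q G) where
  toFun := conjSub y
  invFun := conjSub y⁻¹
  left_inv := conjSub_inv_conjSub y
  right_inv := conjSub_conjSub_inv y

theorem Psi_conj (u : Subgroup (Wr q G) → ℤ) (hu : ∀ y M, u (conjSub y M) = u M)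
    (y g : Wr q G) [Fintype (Set (Subgroup (Wr q G)))] : Psi p u (y * g * y⁻¹) = Psi p u g := by
  unfold Psi
  symm
  refine Fintype.sum_equiv (Equiv.Set.congr (cE y)) _ _ fun σ => ?_
  have e0 : (Equiv.Set.congr (cE y)) σ = conjSub y '' σ := rfl
  rw [e0, chainStabilizer_conj, ncard_conj, hu]
  have e1 : (σ ⊆ XC p q G ∧ IsChain (· ≤ ·) σ) ∧ g ∈ chainStabilizer σ ↔
      (conjSub y '' σ ⊆ XC p q G ∧ IsChain (· ≤ ·) (conjSub y '' σ)) ∧
        y * g * y⁻¹ ∈ conjSub y (chainStabilizer σ) := by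
    constructor
    · rintro ⟨⟨h1, h2⟩, h3⟩
      refine ⟨⟨?_, ?_⟩, conj_mem_conjSub h3⟩
      · rintro _ ⟨P, hP, rfl⟩
        exact XC_conj (h1 hP)
      · rintro _ ⟨P, hP, rfl⟩ _ ⟨Q, hQ, rfl⟩ _
        rcases h2.total hP hQ with h | h
        · exact Or.inl (conjSub_le h)
        · exact Or.inr (conjSub_le h)
    · rintro ⟨⟨h1, h2⟩, h3⟩
      refine ⟨⟨?_, ?_⟩, ?_⟩
      · intro P hP
        have h4 := XC_conj (y := y⁻¹) (h1 ⟨P, hP, rfl⟩)
        rw [conjSub_inv_conjSub] at h4
        exact h4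
      · intro P hP Q hQ _
        rcases h2.total (Set.mem_image_of_mem _ hP) (Set.mem_image_of_mem _ hQ) with h | h
        · have h4 := conjSub_le (g := y⁻¹) h
          rw [conjSub_inv_conjSub, conjSub_inv_conjSub] at h4
          exact Or.inl h4
        · have h4 := conjSub_le (g := y⁻¹) h
          rw [conjSub_inv_conjSub, conjSub_inv_conjSub] at h4
          exact Or.inr h4
      · rw [mem_conjSub] at h3
        have h4 : y⁻¹ * (y * g * y⁻¹) * y = g := by group
        rw [h4] at h3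
        exact h3
  by_cases h : (σ ⊆ XC p q G ∧ IsChain (· ≤ ·) σ) ∧ g ∈ chainStabilizer σ
  · rw [if_pos h, if_pos (e1.1 h)]
  · rw [if_neg h, if_neg fun h' => h (e1.2 h')]

theorem dg_mem {Q : Subgroup G} (h1 : IsPGroup p Q) (h2 : Q ≠ ⊥) :
    (dg' Q : Subgroup (Wr q G)) ∈ XC p q G := by
  have : NeZero q := ⟨hq.out.ne_zero⟩
  have _f : Fintype G := Fintype.ofFinite G
  refine ⟨⟨?_, ?_, box_le _⟩, ?_⟩
  · have h3 : IsPGroup p (Subgroup.pi Set.univ fun _ : ZMod q => Q) :=
      isPGroup_piS (K := fun _ : ZMod q => G) fun _ => h1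
    exact h3.map _
  · intro h3
    apply h2
    rw [← pc_dg Q (0 : ZMod q), h3, eq_bot_iff]
    intro g hg
    obtain ⟨y, hy, rfl⟩ := mem_pc.1 hg
    have h4 : y = 1 := SemidirectProduct.inl_injective ((Subgroup.mem_bot.1 hy).trans (map_one _).symm)
    rw [h4]
    exact Subgroup.one_mem _
  · unfold cl
    congr 1
    funext i
    exact pc_dg Q i

theorem pc_chain {P : Subgroup (Wr q G)} (h : P ∈ XC p q G) {a : G}
    (ha : conjSub (ga a) P = P) : IsPGroup p (pc P 0) ∧ pc P 0 ≠ ⊥ := by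
  obtain ⟨⟨h1, h2, h3⟩, h4⟩ := h
  refine ⟨IsPGroup.map (h1.comap_of_injective _ SemidirectProduct.inl_injective) _, ?_⟩
  intro h5
  apply h2
  rw [closed_ga h4 ha, h5, eq_bot_iff]
  intro x hx
  obtain ⟨y, rfl⟩ := box_le _ hx
  have h6 := inl_mem_box.1 hx
  have h7 : y = 1 := funext fun i => Subgroup.mem_bot.1 (h6 i)
  rw [h7, map_one]
  exact Subgroup.one_mem _

theorem Psi_ga (u : Subgroup (Wr q G) → ℤ) (a : G) [Fintype (Set (Subgroup (Wr q G)))]
    [Fintype (Set (Subgroup G))] :
    Psi p u (ga a) = ∑ τ : Set (Subgroup G), if IsPChain p τ ∧ a ∈ chainStabilizer τ then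
      (-1) ^ τ.ncard * u (WW q (chainStabilizer τ)) else 0 := by
  unfold Psi
  rw [← Finset.sum_filter, ← Finset.sum_filter]
  symm
  refine Finset.sum_nbij' (fun τ => (dg' : Subgroup G → Subgroup (Wr q G)) '' τ)
    (fun σ => (fun P => pc P 0) '' σ) ?_ ?_ ?_ ?_ ?_
  · intro τ hτ
    rw [Finset.mem_filter] at hτ ⊢
    obtain ⟨-, h1, h2⟩ := hτ
    refine ⟨Finset.mem_univ _, ⟨?_, ?_⟩, ?_⟩
    · rintro _ ⟨Q, hQ, rfl⟩
      exact dg_mem (h1.isPGroup Q hQ) (h1.ne_bot Q hQ)
    · rintro _ ⟨P, hP, rfl⟩ _ ⟨Q, hQ, rfl⟩ _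
      rcases h1.chain.total hP hQ with h | h
      · exact Or.inl (dg_mono.2 h)
      · exact Or.inr (dg_mono.2 h)
    · rw [stab_dg, ga_mem]
      exact h2
  · intro σ hσ
    rw [Finset.mem_filter] at hσ ⊢
    obtain ⟨-, ⟨h1, h2⟩, h3⟩ := hσ
    have h4 := mem_chainStabilizer.1 h3
    refine ⟨Finset.mem_univ _, ⟨?_, ?_, ?_⟩, ?_⟩
    · rintro _ ⟨P, hP, rfl⟩ _ ⟨Q, hQ, rfl⟩ _
      rcases h2.total hP hQ with h | h
      · exact Or.inl (pc_mono h 0)
      · exact Or.inr (pc_mono h 0)
    · rintro _ ⟨P, hP, rfl⟩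
      exact (pc_chain (h1 hP) (h4 P hP)).1
    · rintro _ ⟨P, hP, rfl⟩
      exact (pc_chain (h1 hP) (h4 P hP)).2
    · rw [mem_chainStabilizer]
      rintro _ ⟨P, hP, rfl⟩
      have h5 := closed_ga (h1 hP).2 (h4 P hP)
      have h6 := h4 P hP
      rw [h5, conj_dg] at h6
      have h7 := h6 0
      have h8 : (ga a : Wr q G).left 0 = a := by
        unfold ga
        rw [mul_left_apply]
        simp
      rw [h8] at h7
      change conjSub a (pc P 0) = pc P 0
      exact h7
  · intro τ _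
    rw [← Set.image_comp]
    have : (fun P : Subgroup (Wr q G) => pc P 0) ∘ dg' = id := funext fun Q => pc_dg Q 0
    rw [this, Set.image_id]
  · intro σ hσ
    rw [Finset.mem_filter] at hσ
    obtain ⟨-, ⟨h1, h2⟩, h3⟩ := hσ
    have h4 := mem_chainStabilizer.1 h3
    change dg' '' ((fun P => pc P 0) '' σ) = σ
    rw [← Set.image_comp]
    ext P
    constructor
    · rintro ⟨P', hP', rfl⟩
      change dg' (pc P' 0) ∈ σ
      rw [← closed_ga (h1 hP').2 (h4 P' hP')]
      exact hP'
    · intro hP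
      exact ⟨P, hP, (closed_ga (h1 hP).2 (h4 P hP)).symm⟩
  · intro τ _
    rw [stab_dg, Set.ncard_image_of_injective _ dg_inj]

/-- the number of the elements of `M` in the coset of the generator times `u` -/
def HU (u : Subgroup (Wr q G) → ℤ) (M : Subgroup (Wr q G)) : ℤ :=
  (Nat.card {g : Wr q G // g ∈ M ∧ g.right = Multiplicative.ofAdd 1} : ℤ) * u M

/-- the map `(n, a) ↦ (n 0, n (a, 1, …, 1) t n⁻¹)` -/
def Phi (x : (ZMod q → G) × G) : (ZMod q → G) × G :=
  (fun i => x.1 i * (if i = 0 then x.2 else 1) * (x.1 (i - 1))⁻¹, x.1 0)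

theorem Phi_bij : Function.Bijective (Phi : (ZMod q → G) × G → (ZMod q → G) × G) := by
  have : NeZero q := ⟨hq.out.ne_zero⟩
  rw [← Finite.injective_iff_bijective]
  rintro ⟨n, a⟩ ⟨n', a'⟩ h
  have h0 : n 0 = n' 0 := congrArg Prod.snd h
  have h1 : ∀ i, n i * (if i = 0 then a else 1) * (n (i - 1))⁻¹ =
      n' i * (if i = 0 then a' else 1) * (n' (i - 1))⁻¹ := fun i =>
    congrFun (congrArg Prod.fst h) i
  have h2 : ∀ k : ℕ, k < q → n (k : ZMod q) = n' (k : ZMod q) := by
    intro k
    induction k with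
    | zero =>
      intro _
      rw [Nat.cast_zero]
      exact h0
    | succ k ih =>
      intro hk
      have h3 := h1 ((k + 1 : ℕ) : ZMod q)
      have h4 : ((k + 1 : ℕ) : ZMod q) ≠ 0 := by
        intro h5
        rw [ZMod.natCast_eq_zero_iff] at h5
        exact absurd (Nat.le_of_dvd (Nat.succ_pos k) h5) (by omega)
      rw [if_neg h4, if_neg h4, mul_one, mul_one, Nat.cast_succ, add_sub_cancel_right,
        ih (by omega)] at h3
      rw [Nat.cast_succ]
      exact mul_right_cancel h3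
  have h3 : n = n' := by
    funext i
    rw [← ZMod.natCast_zmod_val i]
    exact h2 _ (ZMod.val_lt i)
  subst h3
  have h4 := h1 0
  rw [if_pos rfl, if_pos rfl] at h4
  have h5 := mul_left_cancel (mul_right_cancel h4)
  rw [h5]

/-- **the sum over the chains with large stabilisers** -/
theorem sum_HU (u : Subgroup (Wr q G) → ℤ) (hu : ∀ y M, u (conjSub y M) = u M) :
    (Nat.card G : ℤ) * chs (XC p q G) (wt ⊤ (HU u)) = (Nat.card G : ℤ) ^ q *
      ∑ᶠ τ : {τ : Set (Subgroup G) // IsPChain p τ}, (-1) ^ τ.1.ncard *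
        ((Nat.card (chainStabilizer τ.1) : ℤ) * u (WW q (chainStabilizer τ.1))) := by
  have : NeZero q := ⟨hq.out.ne_zero⟩
  have _f0 : Fintype G := Fintype.ofFinite G
  have _f1 : Fintype (Wr q G) := Fintype.ofFinite _
  have _f2 : Fintype (Set (Subgroup (Wr q G))) := Fintype.ofFinite _
  have _f3 : Fintype (Set (Subgroup G)) := Fintype.ofFinite _
  have _f4 : Fintype {τ : Set (Subgroup G) // IsPChain p τ} := Fintype.ofFinite _
  -- the number of elements as a sum
  have e1 : ∀ M : Subgroup (Wr q G), HU u M = ∑ b : ZMod q → G,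
      if (inl b * tt q G : Wr q G) ∈ M then u M else 0 := by
    intro M
    unfold HU
    rw [← Finset.sum_filter, Finset.sum_const, nsmul_eq_mul, ← Fintype.card_subtype,
      ← Nat.card_eq_fintype_card]
    congr 2
    refine Nat.card_congr
      { toFun := fun g => ⟨g.1.left, ?_⟩
        invFun := fun b => ⟨inl b.1 * tt q G, b.2, by simp⟩
        left_inv := fun g => Subtype.ext ?_
        right_inv := fun b => Subtype.ext ?_ }
    · rw [inl_tt g.1 g.2.2]
      exact g.2.1
    · exact inl_tt g.1 g.2.2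
    · change (inl b.1 * tt q G : Wr q G).left = b.1
      simp
  have e2 : chs (XC p q G) (wt ⊤ (HU u)) = ∑ b : ZMod q → G, Psi p u (inl b * tt q G) := by
    rw [chs_eq, Finset.sum_filter]
    unfold Psi
    rw [Finset.sum_comm]
    refine Finset.sum_congr rfl fun σ _ => ?_
    by_cases h : σ ⊆ XC p q G ∧ IsChain (· ≤ ·) σ
    · rw [if_pos h]
      unfold wt
      rw [top_inf_eq, e1, Finset.mul_sum]
      refine Finset.sum_congr rfl fun b _ => ?_
      by_cases hb : (inl b * tt q G : Wr q G) ∈ chainStabilizer σ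
      · rw [if_pos hb, if_pos ⟨h, hb⟩]
      · rw [if_neg hb, if_neg fun h' => hb h'.2, mul_zero]
    · rw [if_neg h]
      symm
      refine Finset.sum_eq_zero fun b _ => ?_
      rw [if_neg fun h' => h h'.1]
  have e3 : (Nat.card G : ℤ) * ∑ b : ZMod q → G, Psi p u (inl b * tt q G) =
      ∑ x : (ZMod q → G) × G, Psi p u (inl x.1 * tt q G) := by
    rw [Fintype.sum_prod_type, Finset.mul_sum]
    refine Finset.sum_congr rfl fun b _ => ?_
    change _ = ∑ y : G, Psi p u (inl b * tt q G)
    rw [Finset.sum_const, Finset.card_univ, nsmul_eq_mul, Nat.card_eq_fintype_card]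
  have e4 : ∑ x : (ZMod q → G) × G, Psi p u (inl x.1 * tt q G) =
      ∑ x : (ZMod q → G) × G, Psi p u (ga x.2) := by
    rw [← (Equiv.ofBijective _ (Phi_bij (q := q) (G := G))).sum_comp]
    refine Finset.sum_congr rfl fun x _ => ?_
    rw [← Psi_conj (p := p) u hu (inl x.1) (ga x.2), conj_ga]
    rfl
  rw [e2, e3, e4, Fintype.sum_prod_type]
  change ∑ _x : ZMod q → G, ∑ y : G, Psi p u (ga y) = _
  rw [Finset.sum_const, Finset.card_univ, nsmul_eq_mul,
    ← Nat.card_eq_fintype_card, Nat.card_fun, Nat.card_zmod]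
  push_cast
  congr 1
  rw [finsum_eq_sum_of_fintype]
  have e5 : ∀ a : G, Psi p u (ga a) = ∑ τ : {τ : Set (Subgroup G) // IsPChain p τ},
      if a ∈ chainStabilizer τ.1 then (-1) ^ τ.1.ncard * u (WW q (chainStabilizer τ.1)) else 0 := by
    intro a
    rw [Psi_ga]
    have e6 : ∀ τ : Set (Subgroup G), (if IsPChain p τ ∧ a ∈ chainStabilizer τ then
        (-1) ^ τ.ncard * u (WW q (chainStabilizer τ)) else 0) = if IsPChain p τ then
        (if a ∈ chainStabilizer τ then (-1) ^ τ.ncard * u (WW q (chainStabilizer τ)) else 0)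
          else 0 := by
      intro τ
      by_cases h1 : IsPChain p τ <;> by_cases h2 : a ∈ chainStabilizer τ <;> simp [h1, h2]
    rw [Finset.sum_congr rfl fun τ _ => e6 τ, ← Finset.sum_filter]
    exact Finset.sum_subtype _ (by simp) _
  rw [Finset.sum_congr rfl fun a _ => e5 a, Finset.sum_comm]
  refine Finset.sum_congr rfl fun τ _ => ?_
  rw [← Finset.sum_filter, Finset.sum_const, nsmul_eq_mul, ← Fintype.card_subtype,
    ← Nat.card_eq_fintype_card]
  change (Nat.card (chainStabilizer τ.1) : ℤ) * _ = _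
  ring

end Pool.Agent.U259.WD
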