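import Pool.Agent.U259.WD.Ser

/-!
# Dade's alternating sums and divisibility: main theorems
-/

set_option autoImplicit false
set_option linter.unusedSectionVars false

open scoped Classical BigOperators

noncomputable section

namespace Pool.Agent.U259.WD

open Pool.Agent.Y63.NV
open Pool.Agent.Y63.KR
open Pool.Agent.Y63.AWC (IsIrreducibleCharacter)
open Pool.Agent.N20.KB
open Pool.Agent.N20.DI (Dg HasDef Kd fw)
open Pool.Agent.N78.DIBL (nP)
open Pool.Agent.N85.WM (Wr Base shiftHom mem_base wrF wrF_inZ IsIdem BEq)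
open Pool.Agent.U259.WP (Sep exists_sep NoDz noDz_of numDz_of Op1 eq_zero_of_pow)

/-- the numerator of the recursion -/
def rhs (p q : ℕ) (f : PowerSeries ℤ) : PowerSeries ℤ :=
  f ^ q + if q = p then (PowerSeries.C ((p : ℤ) ^ 2) * PowerSeries.X - 1) *
      PowerSeries.mk (fun d => if q ∣ d then PowerSeries.coeff (d / q) f else 0) -
        PowerSeries.C ((p : ℤ) ^ 2) * PowerSeries.X * f
    else PowerSeries.C ((q : ℤ) ^ 2 - 1) *
      PowerSeries.mk (fun d => if q ∣ d then PowerSeries.coeff (d / q) f else 0)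

section step

variable {p q : ℕ} [hp : Fact p.Prime] [hq : Fact q.Prime] {F : Type} [Field F] [IsAlgClosed F]
  [CharP F p] (red : integralClosure ℤ ℂ →+* F) {G : Type} [Group G] [Finite G]

theorem mk_Sq (e : G → F) (q : ℕ) : PowerSeries.mk (fun d => if q ∣ d then
      PowerSeries.coeff (d / q) (gf p red G e) else 0) =
    PowerSeries.mk (fun d => Sq p q red d G e) := by
  ext d
  rw [PowerSeries.coeff_mk, PowerSeries.coeff_mk]
  unfold Sq gf
  rw [PowerSeries.coeff_mk]

/-- **the recursion** -/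
theorem series {e : G → F} (he : IsIdem e) :
    PowerSeries.C (q : ℤ) * gf p red (Wr q G) (wrF q e) = rhs p q (gf p red G e) := by
  unfold rhs
  by_cases h : q = p
  · subst h
    rw [if_pos rfl, mk_Sq]
    ext d
    rw [PowerSeries.coeff_C_mul]
    cases d with
    | zero =>
      have h1 := form_eq0 (p := q) red he
      have h2 : PowerSeries.coeff 0 (gf q red G e ^ q) = Sd q red 0 G e 1 ^ q := by
        rw [PowerSeries.coeff_zero_eq_constantCoeff_apply, map_pow,
          ← PowerSeries.coeff_zero_eq_constantCoeff_apply]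
        unfold gf
        rw [PowerSeries.coeff_mk]
      have h3 : Sq q q red 0 G e = Sd q red 0 G e 1 := by
        unfold Sq
        rw [if_pos (dvd_zero _), Nat.zero_div]
      rw [map_add, map_sub, h2, sub_mul, map_sub, one_mul, PowerSeries.coeff_mk, h3, mul_assoc,
        PowerSeries.coeff_C_mul, PowerSeries.coeff_zero_X_mul, mul_assoc,
        PowerSeries.coeff_C_mul, PowerSeries.coeff_zero_X_mul]
      unfold gf
      rw [PowerSeries.coeff_mk, h1]
      ring
    | succ d =>
      have h1 := form_eq (p := q) red he d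
      rw [sd_frob red e d] at h1
      rw [map_add, map_sub, sub_mul, map_sub, one_mul, PowerSeries.coeff_mk, mul_assoc,
        PowerSeries.coeff_C_mul, PowerSeries.coeff_succ_X_mul, mul_assoc,
        PowerSeries.coeff_C_mul, PowerSeries.coeff_succ_X_mul, PowerSeries.coeff_mk]
      have h2 : PowerSeries.coeff (d + 1) (gf q red (Wr q G) (wrF q e)) =
          Sd q red (d + 1) (Wr q G) (wrF q e) 1 := by
        unfold gf
        rw [PowerSeries.coeff_mk]
      have h3 : PowerSeries.coeff d (gf q red G e) = Sd q red d G e 1 := by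
        unfold gf
        rw [PowerSeries.coeff_mk]
      rw [h2, h3, h1]
      ring
  · rw [if_neg h, mk_Sq]
    ext d
    have h1 := form_ne red h he d
    rw [PowerSeries.coeff_C_mul, map_add, PowerSeries.coeff_C_mul, PowerSeries.coeff_mk, ← h1]
    congr 1
    unfold gf
    rw [PowerSeries.coeff_mk]

theorem series_coeff {e : G → F} (he : IsIdem e) (d : ℕ) :
    (q : ℤ) * Sd p red d (Wr q G) (wrF q e) 1 = PowerSeries.coeff d (rhs p q (gf p red G e)) := by
  rw [← series red he, PowerSeries.coeff_C_mul]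
  unfold gf
  rw [PowerSeries.coeff_mk]

end step

section arith

/-- divisibility of all coefficients -/
def DvdAll (m : ℤ) (f : PowerSeries ℤ) : Prop := ∀ d, m ∣ PowerSeries.coeff d f

theorem DvdAll.add {m : ℤ} {f g : PowerSeries ℤ} (hf : DvdAll m f) (hg : DvdAll m g) :
    DvdAll m (f + g) := fun d => by
  rw [map_add]
  exact dvd_add (hf d) (hg d)

theorem DvdAll.sub {m : ℤ} {f g : PowerSeries ℤ} (hf : DvdAll m f) (hg : DvdAll m g) :
    DvdAll m (f - g) := fun d => by
  rw [map_sub]
  exact dvd_sub (hf d) (hg d)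

theorem dvdAll_iff {m : ℤ} {f : PowerSeries ℤ} : DvdAll m f ↔ ∃ g, f = PowerSeries.C m * g := by
  constructor
  · intro h
    choose g hg using h
    exact ⟨PowerSeries.mk g, by
      ext d
      rw [PowerSeries.coeff_C_mul, PowerSeries.coeff_mk, hg]⟩
  · rintro ⟨g, rfl⟩ d
    rw [PowerSeries.coeff_C_mul]
    exact dvd_mul_right _ _

theorem DvdAll.mul_left {m : ℤ} {f : PowerSeries ℤ} (hf : DvdAll m f) (g : PowerSeries ℤ) :
    DvdAll m (g * f) := by
  obtain ⟨k, rfl⟩ := dvdAll_iff.1 hf
  exact dvdAll_iff.2 ⟨g * k, by ring⟩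

theorem DvdAll.dil {m : ℤ} {f : PowerSeries ℤ} (hf : DvdAll m f) (q : ℕ) :
    DvdAll m (PowerSeries.mk (fun d => if q ∣ d then PowerSeries.coeff (d / q) f else 0)) :=
  fun d => by
    rw [PowerSeries.coeff_mk]
    split_ifs
    · exact hf _
    · exact dvd_zero _

/-- the two directions of the step -/
theorem rhs_back {p q : ℕ} (hq : q.Prime) {k : ℕ} {f g : PowerSeries ℤ}
    (h : PowerSeries.C (q : ℤ) * g = rhs p q f) (hf : DvdAll ((q : ℤ) ^ (k + 1)) f) :
    DvdAll ((q : ℤ) ^ k) g := by
  have h4 : DvdAll ((q : ℤ) ^ (k + 1)) (f ^ q) := by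
    have h9 : f ^ q = f ^ (q - 1) * f := by
      rw [← pow_succ, Nat.sub_add_cancel hq.one_le]
    rw [h9]
    exact hf.mul_left _
  have h5 : DvdAll ((q : ℤ) ^ (k + 1)) (PowerSeries.C (q : ℤ) * g) := by
    rw [h]
    unfold rhs
    refine h4.add ?_
    split_ifs
    · exact ((hf.dil q).mul_left _).sub (hf.mul_left _)
    · exact (hf.dil q).mul_left _
  intro d
  have h6 := h5 d
  rw [PowerSeries.coeff_C_mul, pow_succ'] at h6
  exact (mul_dvd_mul_iff_left (by exact_mod_cast hq.ne_zero)).1 h6

theorem rhs_step {p q : ℕ} (hq : q.Prime) {k : ℕ} (hk : 1 ≤ k) {f g : PowerSeries ℤ}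
    (h : PowerSeries.C (q : ℤ) * g = rhs p q f) (hf : DvdAll ((q : ℤ) ^ k) f)
    (hg : DvdAll ((q : ℤ) ^ k) g) : DvdAll ((q : ℤ) ^ (k + 1)) f := by
  have h4 : DvdAll ((q : ℤ) ^ (k + 1)) (f ^ q) := fun D => pow_dvd_coeff hq hk hf D
  have h5 : DvdAll ((q : ℤ) ^ (k + 1)) (PowerSeries.C (q : ℤ) * g) := fun d => by
    rw [PowerSeries.coeff_C_mul, pow_succ']
    exact mul_dvd_mul_left _ (hg d)
  have hsq : ∀ u : PowerSeries ℤ, DvdAll ((q : ℤ) ^ k) u → DvdAll ((q : ℤ) ^ (k + 1))
      (PowerSeries.C ((q : ℤ) ^ 2) * u) := by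
    intro u hu d
    rw [PowerSeries.coeff_C_mul, pow_succ', sq, mul_assoc]
    exact mul_dvd_mul_left _ (Dvd.dvd.mul_left (hu d) _)
  have h6 : DvdAll ((q : ℤ) ^ (k + 1))
      (PowerSeries.mk (fun d => if q ∣ d then PowerSeries.coeff (d / q) f else 0)) := by
    unfold rhs at h
    by_cases hqp : q = p
    · subst hqp
      rw [if_pos rfl] at h
      have h7 : PowerSeries.mk (fun d => if q ∣ d then PowerSeries.coeff (d / q) f else 0) =
          f ^ q + PowerSeries.C ((q : ℤ) ^ 2) * (PowerSeries.X *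
            PowerSeries.mk (fun d => if q ∣ d then PowerSeries.coeff (d / q) f else 0)) -
            PowerSeries.C ((q : ℤ) ^ 2) * (PowerSeries.X * f) - PowerSeries.C (q : ℤ) * g := by
        rw [h]
        ring
      rw [h7]
      exact ((h4.add (hsq _ ((hf.dil q).mul_left _))).sub (hsq _ (hf.mul_left _))).sub h5
    · rw [if_neg hqp] at h
      have h7 : PowerSeries.mk (fun d => if q ∣ d then PowerSeries.coeff (d / q) f else 0) =
          f ^ q + PowerSeries.C ((q : ℤ) ^ 2) *
            PowerSeries.mk (fun d => if q ∣ d then PowerSeries.coeff (d / q) f else 0) -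
              PowerSeries.C (q : ℤ) * g := by
        rw [h, map_sub, map_one]
        ring
      rw [h7]
      exact (h4.add (hsq _ (hf.dil q))).sub h5
  intro d
  have h8 := h6 (q * d)
  rw [PowerSeries.coeff_mk, if_pos (dvd_mul_right _ _), Nat.mul_div_cancel_left _ hq.pos] at h8
  exact h8

end arith

section main

variable {p q : ℕ} [hp : Fact p.Prime] [hq : Fact q.Prime] {F : Type} [Field F] [IsAlgClosed F]
  [CharP F p] (red : integralClosure ℤ ℂ →+* F)

theorem dvdAll_gf {G : Type} [Group G] {m : ℤ} {e : G → F} :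
    DvdAll m (gf p red G e) ↔ ∀ d, m ∣ Sd p red d G e 1 := by
  unfold DvdAll gf
  simp only [PowerSeries.coeff_mk]

/-- divisibility for the blocks without characters of defect zero -/
def DivD (p : ℕ) {F : Type} [Field F] (red : integralClosure ℤ ℂ →+* F) (m : ℤ) (G : Type)
    [Group G] : Prop :=
  ∀ B : (G → F) → F, IsBlock B → numDzBlock p red B = 0 → ∀ d, m ∣ SBd p red d B

theorem div_step {k : ℕ} (hk : 1 ≤ k) (G : Type) [Group G] [Finite G]
    (h1 : DivD p red ((q : ℤ) ^ k) G) (h2 : DivD p red ((q : ℤ) ^ k) (Wr q G)) :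
    DivD p red ((q : ℤ) ^ (k + 1)) G := by
  have : NeZero q := ⟨hq.out.ne_zero⟩
  intro B hB hz
  obtain ⟨e, he⟩ := exists_sep hB
  have hno := noDz_of red he hz
  have hw := noDz_wr (q := q) red he.1 hno
  have h3 : DvdAll ((q : ℤ) ^ k) (gf p red (Wr q G) (wrF q e)) := by
    rw [dvdAll_gf]
    intro d
    have h4 : ((q ^ k : ℕ) : ℤ) ∣ Sd p red d (Wr q G) (wrF q e) 1 :=
      dvd_sd red (wrF_inZ q G he.1.cl).conj 1 d _ fun B' hB' h4 => by
        have h5 := h2 B' hB' (numDz_of red (wrF_inZ q G he.1.cl).conj h4 hw) d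
        exact_mod_cast h5
    exact_mod_cast h4
  have h6 : DvdAll ((q : ℤ) ^ k) (gf p red G e) := by
    rw [dvdAll_gf]
    intro d
    have := h1 B hB hz d
    rwa [sbd_sep red he] at this
  have h7 := (dvdAll_gf red).1 (rhs_step hq.out hk (series (p := p) (q := q) red he.1) h6 h3)
  intro d
  rw [sbd_sep red he]
  exact h7 d

theorem class_main (q : ℕ) [hq : Fact q.Prime] (X : ∀ (G : Type) [Group G], Prop)
    (hX : ∀ (G : Type) [Group G] [Finite G], X G → X (Wr q G))
    (h : ∀ (G : Type) [Group G] [Finite G], X G → Op1 p G → ∀ B : (G → F) → F, IsBlock B →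
      numDzBlock p red B = 0 → ∀ d, (q : ℤ) ∣ SBd p red d B)
    (G : Type) [Group G] [Finite G] (hG : X G) (B : (G → F) → F) (hB : IsBlock B)
    (hz : numDzBlock p red B = 0) (d : ℕ) : SBd p red d B = 0 := by
  have key : ∀ k : ℕ, ∀ (G : Type) [Group G] [Finite G], X G →
      DivD p red ((q : ℤ) ^ (k + 1)) G := by
    intro k
    induction k with
    | zero =>
      intro G _ _ hG B hB hz d
      rw [zero_add, pow_one]
      by_cases ho : Op1 p G
      · exact h G hG ho B hB hz d
      · rw [sbd_zero red ho B hB]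
        exact dvd_zero _
    | succ k ih =>
      intro G _ _ hG
      exact div_step red (Nat.succ_le_succ (Nat.zero_le k)) G (ih G hG) (ih (Wr q G) (hX G hG))
  refine eq_zero_of_pow hq.out fun k => ?_
  exact (pow_dvd_pow _ (Nat.le_succ k)).trans (key k G hG B hB hz d)

/-- the alternating sums of the iterated wreath products -/
def SdN (p q : ℕ) [NeZero q] {F : Type} [Field F] (red : integralClosure ℤ ℂ →+* F) (d : ℕ) :
    ℕ → (G : Type) → [Group G] → (G → F) → ℤ
  | 0, G, _, e => Sd p red d G e 1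
  | j + 1, G, _, e => SdN p q red d j (Wr q G) (wrF q e)

theorem tower (q : ℕ) [hq : Fact q.Prime] (a : ℕ) : ∀ (G : Type) [Group G] [Finite G] (e : G → F),
    IsIdem e → ((∀ d, (q : ℤ) ^ a ∣ Sd p red d G e 1) ↔
      ∀ j < a, ∀ d, (q : ℤ) ∣ SdN p q red d j G e) := by
  induction a with
  | zero =>
    intro G _ _ e _
    simp
  | succ a ih =>
    intro G _ _ e he
    have hf := series (p := p) (q := q) red he
    constructor
    · intro h j hj d
      cases j with
      | zero => exact (dvd_pow_self _ (Nat.succ_ne_zero a)).trans (h d)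
      | succ j =>
        have h1 := (dvdAll_gf red).1 (rhs_back hq.out hf ((dvdAll_gf red).2 h))
        exact (ih (Wr q G) (wrF q e) (idem_wr red he)).1 h1 j (by omega) d
    · intro h
      have h0 : ∀ d, (q : ℤ) ∣ Sd p red d G e 1 := fun d => h 0 (Nat.succ_pos a) d
      have h1 : ∀ d, (q : ℤ) ^ a ∣ Sd p red d (Wr q G) (wrF q e) 1 :=
        (ih (Wr q G) (wrF q e) (idem_wr red he)).2 fun j hj => h (j + 1) (by omega)
      have key : ∀ b ≤ a, DvdAll ((q : ℤ) ^ (b + 1)) (gf p red G e) := by
        intro b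
        induction b with
        | zero => intro _; rw [zero_add, pow_one]; exact (dvdAll_gf red).2 h0
        | succ b ihb =>
          intro hb
          exact rhs_step hq.out (Nat.succ_le_succ (Nat.zero_le b)) hf (ihb (by omega))
            ((dvdAll_gf red).2 fun d => (pow_dvd_pow _ hb).trans (h1 d))
      exact (dvdAll_gf red).1 (key a le_rfl)

theorem tower_zero (q : ℕ) [hq : Fact q.Prime] (G : Type) [Group G] [Finite G] (e : G → F)
    (he : IsIdem e) :
    (∀ d, Sd p red d G e 1 = 0) ↔ ∀ j d, (q : ℤ) ∣ SdN p q red d j G e := by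
  constructor
  · intro h j d
    exact (tower red q (j + 1) G e he).1 (fun d => by rw [h d]; exact dvd_zero _) j
      (Nat.lt_succ_self j) d
  · intro h d
    exact eq_zero_of_pow hq.out fun k => (tower red q k G e he).2 (fun j _ => h j) d

end main

/-- the sum without signs -/
def TBd (p : ℕ) {F : Type} [Field F] (red : integralClosure ℤ ℂ →+* F) (d : ℕ) {G : Type} [Group G]
    (B : (G → F) → F) : ℕ :=
  ∑ᶠ c : Quotient (chainSetoid p G), nP red p d (fun b => BEq b B) (chainStabilizer c.out.1)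

theorem parity {p : ℕ} {F : Type} [Field F] (red : integralClosure ℤ ℂ →+* F) {G : Type} [Group G]
    [Finite G] (d : ℕ) (B : (G → F) → F) :
    (2 : ℤ) ∣ SBd p red d B ↔ Even (TBd p red d B) := by
  have _i : Fintype (Quotient (chainSetoid p G)) := Fintype.ofFinite _
  rw [← Int.even_coe_nat, even_iff_two_dvd]
  have h : (2 : ℤ) ∣ SBd p red d B - (TBd p red d B : ℤ) := by
    unfold SBd TBd alternatingSum
    rw [finsum_eq_sum_of_fintype, finsum_eq_sum_of_fintype]
    push_cast
    rw [← Finset.sum_sub_distrib]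
    refine Finset.dvd_sum fun c _ => ?_
    rcases neg_one_pow_eq_or ℤ c.out.1.ncard with h1 | h1
    · rw [h1, one_mul, sub_self]
      exact dvd_zero _
    · rw [h1]
      exact ⟨-(nP red p d (fun b => BEq b B) (chainStabilizer c.out.1) : ℤ), by ring⟩
  constructor
  · intro h1
    have := dvd_sub h1 h
    rwa [sub_sub_cancel] at this
  · intro h1
    have := dvd_add h h1
    rwa [sub_add_cancel] at this

end Pool.Agent.U259.WD
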