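import Pool.Agent.U259.WD.Form

/-!
# Dade's alternating sums and divisibility
-/

set_option autoImplicit false
set_option linter.unusedSectionVars false

open scoped Classical BigOperators

noncomputable section

namespace Pool.Agent.U259.WD

open Pool.Agent.Y63.NV
open Pool.Agent.Y63.KR
open Pool.Agent.Y63.AWC (IsIrreducibleCharacter)
open Pool.Agent.N20.KB
open Pool.Agent.N20.DI (Dg HasDef Kd fw)
open Pool.Agent.N78.DIBL (nP XD bX alt_cnt bX_block alt_normal Kd_conj top_zero)
open Pool.Agent.N85.WM (Wr Base shiftHom mem_base wrF wrF_inZ IsIdem BEq)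
open Pool.Agent.R674.KB (kblk dz_chain dz_unique)
open Pool.Agent.U259.WP (Sep exists_sep NoDz noDz_of numDz_of Op1 cnt_mod' eq_zero_of_pow)

section blk

variable {p : ℕ} {F : Type} [Field F] (red : integralClosure ℤ ℂ →+* F) {G : Type} [Group G]
  [Finite G]

/-- Dade's alternating sum for the block `B` -/
def SBd (p : ℕ) {F : Type} [Field F] (red : integralClosure ℤ ℂ →+* F) (d : ℕ) {G : Type} [Group G]
    (B : (G → F) → F) : ℤ :=
  alternatingSum p G (fun H => (nP red p d (fun b => BEq b B) H : ℤ))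

theorem sd_nP (z : G → F) (c : F) (D : ℕ) : Sd p red D G z c =
    alternatingSum p G (fun H => (nP red p D (fun b => b z = c) H : ℤ)) := rfl

variable [hp : Fact p.Prime] [IsAlgClosed F] [CharP F p]

/-- from blocks to class functions -/
theorem dvd_sd {z : G → F} (hz : IsClassFun z) (c : F) (D m : ℕ)
    (h : ∀ B : (G → F) → F, IsBlock B → B z = c → (m : ℤ) ∣ SBd p red D B) :
    (m : ℤ) ∣ Sd p red D G z c := by
  rw [sd_nP, alt_cnt]
  have h1 := cnt_mod' (bX (p := p) (D := D) (G := G) (ε := True) red)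
    (bX (p := p) (D := D) (G := G) (ε := False) red)
    (bX_block red) (bX_block red) m hz c (fun B hB hc => by
      have h2 := h B hB hc
      unfold SBd at h2
      rw [alt_cnt] at h2
      exact (Nat.modEq_iff_dvd.2 (by
        rw [← dvd_neg, neg_sub]
        exact h2)))
  have h2 := Nat.modEq_iff_dvd.1 h1
  rw [← dvd_neg, neg_sub] at h2
  exact h2

theorem sbd_sep {B : (G → F) → F} {e : G → F} (h : Sep B e) (D : ℕ) :
    SBd p red D B = Sd p red D G e 1 := by
  have h1 : ∀ ε : Prop, Nat.card {x : XD p D G ε // BEq (bX red x) B} =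
      Nat.card {x : XD p D G ε // bX red x e = 1} := by
    intro ε
    refine Nat.card_congr (Equiv.subtypeEquivRight fun x => ?_)
    constructor
    · intro h2
      rw [h2 e h.1.cl]
      exact h.2.1
    · intro h2
      exact (h.2.2 _ (bX_block red x) h2).symm
  have h2 := alt_cnt (p := p) (D := D) (G := G) red (fun b => BEq b B)
  have h3 := alt_cnt (p := p) (D := D) (G := G) red (fun b => b e = 1)
  unfold SBd
  rw [sd_nP, h2, h3, h1, h1]

theorem sbd_dz {B : (G → F) → F} (hdz : numDzBlock p red B ≠ 0) {D : ℕ} (hD : 1 ≤ D) :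
    SBd p red D B = 0 := by
  have _f : Fintype G := Fintype.ofFinite G
  obtain ⟨χ, hχ, hχB⟩ : ∃ χ : G → ℂ, IsWt p (⊥ : Subgroup G) χ ∧
      ∀ f : G → F, IsClassFun f → centralValue red χ f = B f := by
    by_contra hcon
    push Not at hcon
    apply hdz
    unfold numDzBlock
    rw [Nat.card_eq_zero]
    left
    constructor
    rintro ⟨χ, hχ, hχB⟩
    obtain ⟨f, hf, hne⟩ := hcon χ hχ
    exact hne (hχB f hf)
  have hz0 : ∀ q : Quotient (chainSetoid p G),
      nP red p D (fun b => BEq b B) (chainStabilizer q.out.1) = 0 := by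
    intro q
    unfold Pool.Agent.N78.DIBL.nP
    rw [Nat.card_eq_zero]
    left
    constructor
    rintro ⟨ψ, hψ, hdef, hψB⟩
    by_cases hne : q.out.1.Nonempty
    · refine dz_chain (F := F) red hχ q.out.2 hne hψ fun f hf => ?_
      rw [hχB f hf]
      exact hψB f hf
    · rw [Set.not_nonempty_iff_eq_empty] at hne
      have hJ : chainStabilizer q.out.1 = ⊤ := by
        rw [hne]
        exact chainStabilizer_empty (Γ := G)
      exact top_zero red hχ hχB hD hJ hψ hdef hψB
  unfold SBd alternatingSum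
  have h1 : ∀ q : Quotient (chainSetoid p G), (-1 : ℤ) ^ q.out.1.ncard *
      (nP red p D (fun b => BEq b B) (chainStabilizer q.out.1) : ℤ) = 0 := by
    intro q
    rw [hz0 q, Nat.cast_zero, mul_zero]
  rw [finsum_congr h1, finsum_zero]

theorem sbd_zero (h : ¬ Op1 p G) (B : (G → F) → F) (hB : IsBlock B) (D : ℕ) :
    SBd p red D B = 0 := by
  unfold Pool.Agent.U259.WP.Op1 at h
  push Not at h
  obtain ⟨P, hP, hPp, hP1⟩ := h
  obtain ⟨e, he⟩ := exists_sep hB
  rw [sbd_sep red he]
  exact alt_normal hP hPp hP1 _ (conjInv_kd red he.1.cl 1 D)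

/-- no characters of defect zero -/
theorem sd_zero' {e : G → F} (he : IsClassFun e) (h : NoDz p red e) :
    Sd p red 0 G e 1 = 0 := by
  unfold Sd alternatingSum
  refine finsum_eq_zero_of_forall_eq_zero fun c => ?_
  have h2 : Kd p red 0 (fun x : chainStabilizer c.out.1 => e x) 1 = 0 := by
    unfold Kd
    rw [Nat.card_eq_zero]
    left
    constructor
    rintro ⟨χ, hχ, hd, hv⟩
    by_cases hne : c.out.1.Nonempty
    · obtain ⟨P, hP, hmin⟩ : ∃ P ∈ c.out.1, ∀ Q ∈ c.out.1, P ≤ Q := by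
        obtain ⟨m, hm1, hm2⟩ := (Set.toFinite c.out.1).exists_minimal hne
        refine ⟨m, hm1, fun Q hQ => ?_⟩
        rcases c.out.2.chain.total hm1 hQ with h3 | h3
        · exact h3
        · exact hm2 hQ h3
      have hle : P ≤ chainStabilizer c.out.1 := by
        intro x hx
        rw [mem_chainStabilizer]
        intro Q hQ
        rw [conjSub_eq_iff]
        exact Subgroup.le_normalizer (hmin Q hQ hx)
      have hn : (P.subgroupOf (chainStabilizer c.out.1)).Normal := by
        constructor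
        intro x hx y
        rw [Subgroup.mem_subgroupOf] at hx ⊢
        have h1 : conjSub (y : G) P = P := mem_chainStabilizer.mp y.2 P hP
        have h2 := conj_mem_conjSub (g := (y : G)) hx
        rw [h1] at h2
        exact h2
      have hw : IsWt p (⊥ : Subgroup (chainStabilizer c.out.1)) χ :=
        Pool.Agent.N237.DI.wt_iff.2 ⟨hχ, hd⟩
      refine wtn p (chainStabilizer c.out.1) ⊥ (P.subgroupOf (chainStabilizer c.out.1)) χ
        inferInstance hn (c.out.2.isPGroup P hP).comap_subtype ?_ hw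
      rw [bot_lt_iff_ne_bot]
      intro h3
      apply c.out.2.ne_bot P hP
      rw [Subgroup.subgroupOf_eq_bot] at h3
      exact eq_bot_iff.2 fun x hx => h3.le_bot ⟨hx, hle hx⟩
    · rw [Set.not_nonempty_iff_eq_empty] at hne
      have hJ : ∀ x : G, x ∈ chainStabilizer c.out.1 := by
        intro x
        rw [hne, chainStabilizer_empty (Γ := G)]
        exact Subgroup.mem_top x
      let ε : G ≃* chainStabilizer c.out.1 :=
        { toFun := fun x => ⟨x, hJ x⟩
          invFun := fun x => x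
          left_inv := fun _ => rfl
          right_inv := fun _ => rfl
          map_mul' := fun _ _ => rfl }
      have h3 : IsIrreducibleCharacter (fun x => χ (ε x)) := irr_comp' ε hχ
      refine h (fun x => χ (ε x)) h3 ?_ ?_
      · obtain ⟨n, hn1, hn2⟩ := hd
        refine ⟨n, ?_, ?_⟩
        · change χ (ε 1) = n
          rw [map_one]
          exact hn1
        · rw [Nat.card_congr ε.toEquiv]
          exact hn2
      · rw [← hv]
        exact Pool.Agent.Y286.NV.centralValue_comp red ε χ (Pool.Agent.Y286.NV.irr_class hχ)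
          (fun x => e x) (fun g x => he g x)
  change (-1) ^ c.out.1.ncard * ((Kd p red 0 (fun x : chainStabilizer c.out.1 => e x) 1 : ℕ) : ℤ) = 0
  rw [h2, Nat.cast_zero, mul_zero]

end blk

section arith

theorem coeff_pow_dvd {m : ℤ} {f : PowerSeries ℤ} (h : ∀ d, m ∣ PowerSeries.coeff d f) (n D : ℕ) :
    m ^ n ∣ PowerSeries.coeff D (f ^ n) := by
  choose g hg using h
  have h1 : f = PowerSeries.C m * PowerSeries.mk g := by
    ext d
    rw [PowerSeries.coeff_C_mul, PowerSeries.coeff_mk, hg]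
  rw [h1, mul_pow, ← map_pow, PowerSeries.coeff_C_mul]
  exact dvd_mul_right _ _

theorem pow_dvd_coeff {q k : ℕ} (hq : q.Prime) (hk : 1 ≤ k) {f : PowerSeries ℤ}
    (h : ∀ d, (q : ℤ) ^ k ∣ PowerSeries.coeff d f) (D : ℕ) :
    (q : ℤ) ^ (k + 1) ∣ PowerSeries.coeff D (f ^ q) := by
  refine Dvd.dvd.trans ?_ (coeff_pow_dvd h q D)
  rw [← pow_mul]
  refine pow_dvd_pow _ ?_
  have := hq.two_le
  nlinarith

end arith

section step

variable {p q : ℕ} [hp : Fact p.Prime] [hq : Fact q.Prime] {F : Type} [Field F] [IsAlgClosed F]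
  [CharP F p] (red : integralClosure ℤ ℂ →+* F) {G : Type} [Group G] [Finite G]

/-- one step for `q ≠ p` -/
theorem step_ne (h : q ≠ p) {e : G → F} (he : IsIdem e) {k : ℕ} (hk : 1 ≤ k)
    (h1 : ∀ d, (q : ℤ) ^ k ∣ Sd p red d G e 1)
    (h2 : ∀ d, (q : ℤ) ^ k ∣ Sd p red d (Wr q G) (wrF q e) 1) (d : ℕ) :
    (q : ℤ) ^ (k + 1) ∣ Sd p red d G e 1 := by
  have hf := form_ne red h he (q * d)
  have h3 : Sq p q red (q * d) G e = Sd p red d G e 1 := by
    unfold Sq
    rw [if_pos (dvd_mul_right _ _), Nat.mul_div_cancel_left _ hq.out.pos]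
  rw [h3] at hf
  have h4 : (q : ℤ) ^ (k + 1) ∣ PowerSeries.coeff (q * d) (gf p red G e ^ q) :=
    pow_dvd_coeff hq.out hk (fun d => by
      unfold gf
      rw [PowerSeries.coeff_mk]
      exact h1 d) _
  have h5 : (q : ℤ) ^ (k + 1) ∣ (q : ℤ) * Sd p red (q * d) (Wr q G) (wrF q e) 1 := by
    rw [pow_succ']
    exact mul_dvd_mul_left _ (h2 _)
  have h6 : (q : ℤ) ^ (k + 1) ∣ (q : ℤ) ^ 2 * Sd p red d G e 1 := by
    rw [show k + 1 = k + 1 from rfl, pow_succ', sq, mul_assoc]
    exact mul_dvd_mul_left _ (Dvd.dvd.mul_left (h1 d) _)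
  have h7 : Sd p red d G e 1 = PowerSeries.coeff (q * d) (gf p red G e ^ q) +
      (q : ℤ) ^ 2 * Sd p red d G e 1 - (q : ℤ) * Sd p red (q * d) (Wr q G) (wrF q e) 1 := by
    linear_combination hf
  rw [h7]
  exact dvd_sub (dvd_add h4 h6) h5

/-- the converse step for `q ≠ p` -/
theorem back_ne (h : q ≠ p) {e : G → F} (he : IsIdem e) {k : ℕ}
    (h1 : ∀ d, (q : ℤ) ^ (k + 1) ∣ Sd p red d G e 1) (d : ℕ) :
    (q : ℤ) ^ k ∣ Sd p red d (Wr q G) (wrF q e) 1 := by
  have hf := form_ne red h he d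
  have h4 : (q : ℤ) ^ (k + 1) ∣ PowerSeries.coeff d (gf p red G e ^ q) := by
    rcases Nat.eq_zero_or_pos k with rfl | hk
    · have h5 := coeff_pow_dvd (m := (q : ℤ)) (f := gf p red G e) (fun d => by
        unfold gf
        rw [PowerSeries.coeff_mk]
        have := h1 d
        rwa [zero_add, pow_one] at this) q d
      rw [zero_add, pow_one]
      exact (dvd_pow_self _ hq.out.ne_zero).trans h5
    · exact pow_dvd_coeff hq.out hk (fun d => by
        unfold gf
        rw [PowerSeries.coeff_mk]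
        exact (pow_dvd_pow _ (Nat.le_succ k)).trans (h1 d)) _
  have h5 : (q : ℤ) ^ (k + 1) ∣ Sq p q red d G e := by
    unfold Sq
    split_ifs
    · exact h1 _
    · exact dvd_zero _
  have h6 : (q : ℤ) ^ (k + 1) ∣ (q : ℤ) * Sd p red d (Wr q G) (wrF q e) 1 := by
    rw [hf]
    exact dvd_add h4 (Dvd.dvd.mul_left h5 _)
  rw [pow_succ'] at h6
  exact (mul_dvd_mul_iff_left (by exact_mod_cast hq.out.ne_zero)).1 h6

end step

section stepeq

variable {p : ℕ} [hp : Fact p.Prime] {F : Type} [Field F] [IsAlgClosed F]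
  [CharP F p] (red : integralClosure ℤ ℂ →+* F) {G : Type} [Group G] [Finite G]

/-- one step for `q = p` -/
theorem step_eq {e : G → F} (he : IsIdem e) {k : ℕ} (hk : 1 ≤ k) (h0 : Sd p red 0 G e 1 = 0)
    (h1 : ∀ d, (p : ℤ) ^ k ∣ Sd p red d G e 1)
    (h1' : ∀ d, 1 ≤ d → (p : ℤ) ^ k ∣ Sd p red d G (fun g => e g ^ p) 1)
    (h2 : ∀ d, (p : ℤ) ^ k ∣ Sd p red d (Wr p G) (wrF p e) 1) (d : ℕ) :
    (p : ℤ) ^ (k + 1) ∣ Sd p red d G e 1 := by
  rcases Nat.eq_zero_or_pos d with rfl | hd
  · rw [h0]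
    exact dvd_zero _
  obtain ⟨D, hD⟩ : ∃ D, p * d = D + 1 :=
    ⟨p * d - 1, (Nat.sub_add_cancel (Nat.mul_pos hp.out.pos hd)).symm⟩
  have hD1 : 1 ≤ D := by
    have := hp.out.two_le
    nlinarith
  have hf := form_eq red he D
  have h3 : Sq p p red (D + 1) G e = Sd p red d G e 1 := by
    unfold Sq
    rw [← hD, if_pos (dvd_mul_right _ _), Nat.mul_div_cancel_left _ hp.out.pos]
  rw [h3] at hf
  have h4 : (p : ℤ) ^ (k + 1) ∣ PowerSeries.coeff (D + 1) (gf p red G e ^ p) :=
    pow_dvd_coeff hp.out hk (fun d => by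
      unfold gf
      rw [PowerSeries.coeff_mk]
      exact h1 d) _
  have h5 : (p : ℤ) ^ (k + 1) ∣ (p : ℤ) * Sd p red (D + 1) (Wr p G) (wrF p e) 1 := by
    rw [pow_succ']
    exact mul_dvd_mul_left _ (h2 _)
  have hx : ∀ x : ℤ, (p : ℤ) ^ k ∣ x → (p : ℤ) ^ (k + 1) ∣ (p : ℤ) ^ 2 * x := by
    intro x hx
    rw [pow_succ', sq, mul_assoc]
    exact mul_dvd_mul_left _ (Dvd.dvd.mul_left hx _)
  have h6 : (p : ℤ) ^ (k + 1) ∣ (p : ℤ) ^ 2 * Sq p p red D G e := by
    refine hx _ ?_
    unfold Sq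
    split_ifs
    · exact h1 _
    · exact dvd_zero _
  have h7 := hx _ (h1' D hD1)
  have h8 : Sd p red d G e 1 = PowerSeries.coeff (D + 1) (gf p red G e ^ p) +
      (p : ℤ) ^ 2 * Sq p p red D G e - (p : ℤ) ^ 2 * Sd p red D G (fun g => e g ^ p) 1 -
        (p : ℤ) * Sd p red (D + 1) (Wr p G) (wrF p e) 1 := by
    linear_combination hf
  rw [h8]
  exact dvd_sub (dvd_sub (dvd_add h4 h6) h7) h5

end stepeq

end Pool.Agent.U259.WD
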