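import Pool.Agent.U259.WD.Kw

/-!
# Chains of `p`-subgroups of the base group of `G ≀ C_q`
-/

set_option autoImplicit false
set_option linter.unusedSectionVars false

open scoped Classical BigOperators

noncomputable section

namespace Pool.Agent.U259.WD

open Pool.Agent.Y63.NV
open Pool.Agent.Y63.KR
open Pool.Agent.N19.RB (piS mem_piS isPGroup_piS)
open Pool.Agent.N85.WM (Wr Base shiftHom mem_base)
open Pool.Agent.R674.Ce (chs wt Sp chs_eq chs_sub')
open SemidirectProduct (inl inr)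

section box

variable {q : ℕ} [hq : Fact q.Prime] {G : Type} [Group G]

theorem mul_left_apply (x y : Wr q G) (i : ZMod q) :
    (x * y).left i = x.left i * y.left (i - x.right.toAdd) := by
  rw [SemidirectProduct.mul_left]
  rfl

theorem inv_left_apply (x : Wr q G) (i : ZMod q) :
    (x⁻¹).left i = (x.left (i + x.right.toAdd))⁻¹ := by
  rw [SemidirectProduct.inv_left]
  change (x.left (i - (x.right⁻¹).toAdd))⁻¹ = _
  rw [toAdd_inv, sub_neg_eq_add]

theorem conj_inl (x : Wr q G) (y : ZMod q → G) :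
    x * inl y * x⁻¹ = inl fun i => x.left i * y (i - x.right.toAdd) * (x.left i)⁻¹ := by
  apply SemidirectProduct.ext
  · funext i
    rw [mul_left_apply, mul_left_apply, inv_left_apply]
    have h : (x * inl y : Wr q G).right = x.right := mul_one _
    rw [h, sub_add_cancel]
    rfl
  · change x.right * 1 * x.right⁻¹ = 1
    rw [mul_one, mul_inv_cancel]

theorem conj_inl' (x : Wr q G) (y : ZMod q → G) :
    x⁻¹ * inl y * x = inl fun i => (x.left (i + x.right.toAdd))⁻¹ * y (i + x.right.toAdd) *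
      x.left (i + x.right.toAdd) := by
  have h := conj_inl x⁻¹ y
  rw [inv_inv] at h
  rw [h]
  congr 1
  funext i
  rw [inv_left_apply, inv_inv]
  change _ * y (i - (x.right⁻¹).toAdd) * _ = _
  rw [toAdd_inv, sub_neg_eq_add]

theorem mem_pi' {Q : ZMod q → Subgroup G} {y : ZMod q → G} :
    y ∈ Subgroup.pi Set.univ Q ↔ ∀ i, y i ∈ Q i := by
  rw [Subgroup.mem_pi]
  exact ⟨fun h i => h i (Set.mem_univ i), fun h i _ => h i⟩

/-- the product of the subgroups `Q i` -/
def box (Q : ZMod q → Subgroup G) : Subgroup (Wr q G) :=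
  (Subgroup.pi Set.univ Q).map (inl : (ZMod q → G) →* Wr q G)

/-- the projections of `P` -/
def pc (P : Subgroup (Wr q G)) (i : ZMod q) : Subgroup G :=
  (P.comap (inl : (ZMod q → G) →* Wr q G)).map (Pi.evalMonoidHom (fun _ => G) i)

theorem inl_mem_box {Q : ZMod q → Subgroup G} {y : ZMod q → G} :
    (inl y : Wr q G) ∈ box Q ↔ ∀ i, y i ∈ Q i := by
  unfold box
  rw [Subgroup.mem_map]
  constructor
  · rintro ⟨x, hx, h⟩
    rw [← SemidirectProduct.inl_injective h]
    exact mem_pi'.1 hx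
  · intro h
    exact ⟨y, mem_pi'.2 h, rfl⟩

theorem box_le (Q : ZMod q → Subgroup G) : box Q ≤ Base q G := by
  rintro _ ⟨x, -, rfl⟩
  exact ⟨x, rfl⟩

theorem mem_pc {P : Subgroup (Wr q G)} {i : ZMod q} {g : G} :
    g ∈ pc P i ↔ ∃ y : ZMod q → G, (inl y : Wr q G) ∈ P ∧ y i = g := by
  unfold pc
  rw [Subgroup.mem_map]
  rfl

theorem pc_box (Q : ZMod q → Subgroup G) (i : ZMod q) : pc (box Q) i = Q i := by
  ext g
  rw [mem_pc]
  constructor
  · rintro ⟨y, hy, rfl⟩
    exact inl_mem_box.1 hy i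
  · intro hg
    refine ⟨fun j => if j = i then g else 1, inl_mem_box.2 fun j => ?_, if_pos rfl⟩
    by_cases h : j = i
    · rw [if_pos h, h]
      exact hg
    · rw [if_neg h]
      exact (Q j).one_mem

theorem box_mono {Q Q' : ZMod q → Subgroup G} (h : ∀ i, Q i ≤ Q' i) : box Q ≤ box Q' := by
  rintro _ ⟨x, hx, rfl⟩
  exact inl_mem_box.2 fun i => h i (mem_pi'.1 hx i)

theorem pc_mono {P P' : Subgroup (Wr q G)} (h : P ≤ P') (i : ZMod q) : pc P i ≤ pc P' i := by
  intro g hg
  obtain ⟨y, hy, rfl⟩ := mem_pc.1 hg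
  exact mem_pc.2 ⟨y, h hy, rfl⟩

/-- the closure -/
def cl (P : Subgroup (Wr q G)) : Subgroup (Wr q G) := box (pc P)

theorem le_cl {P : Subgroup (Wr q G)} (h : P ≤ Base q G) : P ≤ cl P := by
  intro x hx
  obtain ⟨y, rfl⟩ := h hx
  exact inl_mem_box.2 fun i => mem_pc.2 ⟨y, hx, rfl⟩

theorem cl_mono {P P' : Subgroup (Wr q G)} (h : P ≤ P') : cl P ≤ cl P' :=
  box_mono fun i => pc_mono h i

theorem cl_cl (P : Subgroup (Wr q G)) : cl (cl P) = cl P := by
  unfold cl
  congr 1
  funext i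
  exact pc_box _ i

theorem conj_box (x : Wr q G) (Q : ZMod q → Subgroup G) :
    conjSub x (box Q) = box fun i => conjSub (x.left i) (Q (i - x.right.toAdd)) := by
  ext z
  rw [mem_conjSub]
  constructor
  · intro h
    have h1 : z ∈ Base q G := by
      have h2 := box_le Q h
      rw [mem_base] at h2 ⊢
      change x.right⁻¹ * z.right * x.right = 1 at h2
      rw [mul_comm x.right⁻¹, mul_assoc, inv_mul_cancel, mul_one] at h2
      exact h2
    obtain ⟨y, rfl⟩ := h1
    rw [conj_inl', inl_mem_box] at h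
    rw [inl_mem_box]
    intro i
    rw [mem_conjSub]
    have h2 := h (i - x.right.toAdd)
    rw [sub_add_cancel] at h2
    exact h2
  · intro h
    obtain ⟨y, rfl⟩ := box_le _ h
    rw [inl_mem_box] at h
    rw [conj_inl', inl_mem_box]
    intro i
    have h2 := h (i + x.right.toAdd)
    rw [mem_conjSub, add_sub_cancel_right] at h2
    exact h2

theorem pc_conj (x : Wr q G) (P : Subgroup (Wr q G)) (i : ZMod q) :
    pc (conjSub x P) i = conjSub (x.left i) (pc P (i - x.right.toAdd)) := by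
  ext g
  rw [mem_conjSub, mem_pc, mem_pc]
  constructor
  · rintro ⟨y, hy, rfl⟩
    rw [mem_conjSub, conj_inl'] at hy
    refine ⟨_, hy, ?_⟩
    rw [sub_add_cancel]
  · rintro ⟨y, hy, h⟩
    have h1 := conj_mem_conjSub (g := x) hy
    rw [conj_inl] at h1
    refine ⟨_, h1, ?_⟩
    rw [h]
    group

theorem conj_cl (x : Wr q G) (P : Subgroup (Wr q G)) : conjSub x (cl P) = cl (conjSub x P) := by
  unfold cl
  rw [conj_box]
  congr 1
  funext i
  exact (pc_conj x P i).symm

theorem cl_pg {p : ℕ} [Fact p.Prime] [Finite G] {P : Subgroup (Wr q G)} (h : IsPGroup p P) : IsPGroup p (cl P) := by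
  have : NeZero q := ⟨hq.out.ne_zero⟩
  have _f : Fintype G := Fintype.ofFinite G
  unfold cl box
  have h1 : ∀ i, IsPGroup p (pc P i) := fun i =>
    IsPGroup.map (h.comap_of_injective _ SemidirectProduct.inl_injective) _
  have h2 : IsPGroup p (Subgroup.pi Set.univ (pc P)) :=
    isPGroup_piS (K := fun _ : ZMod q => G) h1
  exact h2.map _

/-- the closed subgroups -/
def XC (p q : ℕ) (G : Type) [Group G] : Set (Subgroup (Wr q G)) :=
  {P | P ∈ Sp p (Base q G) ∧ cl P = P}

theorem cl_mem {p : ℕ} [Fact p.Prime] [Finite G] {P : Subgroup (Wr q G)} (h : P ∈ Sp p (Base q G)) :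
    cl P ∈ Sp p (Base q G) := by
  obtain ⟨h1, h2, h3⟩ := h
  refine ⟨cl_pg h1, fun h4 => h2 ?_, box_le _⟩
  rw [eq_bot_iff, ← h4]
  exact le_cl h3

/-- **reduction to closed subgroups** -/
theorem chs_cl {p : ℕ} [Fact p.Prime] [Finite G] (f : Subgroup (Wr q G) → ℤ) :
    chs (Sp p (Base q G)) (wt ⊤ f) = chs (XC p q G) (wt ⊤ f) :=
  chs_sub' f (Sp p (Base q G)) cl (fun _ h => cl_mem h) (fun P _ => cl_cl P)
    (fun _ _ _ _ h => cl_mono h) (fun _ h => le_cl h.2.2) (fun P _ x _ h => by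
      rw [conj_cl, h])

end box

end Pool.Agent.U259.WD
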