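import Pool.Agent.U259.WD.Tn

/-!
# The alternating sums of the numbers of characters of given defect of `G ≀ C_q`
-/

set_option autoImplicit false
set_option linter.unusedSectionVars false

open scoped Classical BigOperators

noncomputable section

namespace Pool.Agent.U259.WD

open Pool.Agent.Y63.NV
open Pool.Agent.Y63.KR
open Pool.Agent.Y63.AWC (IsIrreducibleCharacter)
open Pool.Agent.N20.KB
open Pool.Agent.N20.DI (Dg HasDef Kd fw pf pf_class parts fw_up)
open Pool.Agent.N85.WM (Wr Base shiftHom mem_base wrF wrF_inZ IsIdem card_quot)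
open Pool.Agent.R674.Ce (chs wt Sp chs_eq toLoc toLoc_bij)
open Pool.Agent.U259.WP (bE X R X_right cpl_R exists_R card_fib ψ wrF_ψ)
open SemidirectProduct (inl inr)

section gen

variable {p : ℕ} {F : Type} [Field F] (red : integralClosure ℤ ℂ →+* F) {Γ : Type} [Group Γ]
  [Finite Γ]

theorem ad_chs (z : Γ → F) (c : F) (D : ℕ) :
    AD p red D Γ z c = chs (Sp p (⊤ : Subgroup Γ)) (wt ⊤ (fw p red D z c)) := by
  unfold AD chs wt
  refine finsum_eq_of_bijective (fun σ : {σ : Set (Subgroup Γ) // IsPChain p σ} =>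
    (⟨σ.1, ⟨fun P hP => ⟨σ.2.isPGroup P hP, σ.2.ne_bot P hP, le_top⟩, σ.2.chain⟩⟩ :
      {σ : Set (Subgroup Γ) // σ ⊆ Sp p ⊤ ∧ IsChain (· ≤ ·) σ})) ⟨?_, ?_⟩ ?_
  · rintro ⟨σ, _⟩ ⟨τ, _⟩ h
    have h' : σ = τ := congrArg Subtype.val h
    exact Subtype.ext h'
  · rintro ⟨σ, hσ⟩
    exact ⟨⟨σ, ⟨hσ.2, fun P hP => (hσ.1 hP).1, fun P hP => (hσ.1 hP).2.1⟩⟩, rfl⟩
  · intro σ
    change _ = (-1) ^ σ.1.ncard * fw p red D z c (⊤ ⊓ chainStabilizer σ.1)
    rw [top_inf_eq]

end gen

section ne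

variable {p q : ℕ} [hp : Fact p.Prime] [hq : Fact q.Prime] {F : Type} [Field F] [IsAlgClosed F]
  [CharP F p] (red : integralClosure ℤ ℂ →+* F) {G : Type} [Group G] [Finite G]

theorem sp_ne (h : q ≠ p) : Sp p (⊤ : Subgroup (Wr q G)) = Sp p (Base q G) := by
  ext P
  constructor
  · rintro ⟨h1, h2, -⟩
    refine ⟨h1, h2, ?_⟩
    by_contra h3
    obtain ⟨-, h4⟩ := card_coset P h3
    obtain ⟨n, hn⟩ := IsPGroup.iff_card.1 h1
    have h5 : q ∣ p ^ n := by
      rw [← hn, h4]
      exact dvd_mul_right _ _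
    have h6 := hq.out.dvd_of_dvd_pow h5
    exact h ((Nat.prime_dvd_prime_iff_eq hq.out hp.out).1 h6)
  · rintro ⟨h1, h2, -⟩
    exact ⟨h1, h2, le_top⟩

/-- **the formula for `q ≠ p`** -/
theorem form_ne (h : q ≠ p) {e : G → F} (he : IsIdem e) (D : ℕ) :
    (q : ℤ) * Sd p red D (Wr q G) (wrF q e) 1 =
      PowerSeries.coeff D (gf p red G e ^ q) + ((q : ℤ) ^ 2 - 1) * Sq p q red D G e := by
  have : NeZero q := ⟨hq.out.ne_zero⟩
  have hz := wrF_inZ q G he.cl
  have h1 := ad_sd (p := p) red hz.conj 1 D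
  rw [ad_chs red, sp_ne h, tn red he D, card_wr'] at h1
  have h2 : Nat.card (Base q G) = Nat.card G ^ q := by
    rw [← Nat.card_congr (bE (p := q) (G := G)).toEquiv, Nat.card_fun, Nat.card_zmod]
  rw [h2] at h1
  have h3 : Ss p q red D G e = Sq p q red D G e := by
    unfold Ss
    rw [if_neg h]
  rw [h3] at h1
  push_cast at h1
  have h6 : (Nat.card G : ℤ) ≠ 0 := by exact_mod_cast Nat.card_pos.ne'
  have h7 : (Nat.card G : ℤ) ^ q ≠ 0 := pow_ne_zero _ h6
  apply mul_left_cancel₀ h7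
  linear_combination -h1

end ne

section eq

variable {p : ℕ} [hp : Fact p.Prime] {F : Type} [Field F] [IsAlgClosed F]
  [CharP F p] (red : integralClosure ℤ ℂ →+* F) {G : Type} [Group G] [Finite G]

theorem card_R (n : ZMod p → G) : Nat.card (R n) = p := by
  have h := cpl_R n
  have h1 : (Base p G).index = p := card_quot p G
  exact Pool.Agent.R674.Ce.cpl_card (p := p) (G := Base p G) h1 h

/-- the isomorphism of `G` with `N(R)/R` -/
def loc (n : ZMod p → G) : G ≃* (Subgroup.normalizer (R n : Set (Wr p G)) ⧸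
    (R n).subgroupOf (Subgroup.normalizer (R n : Set (Wr p G)))) :=
  (ψ n).trans (MulEquiv.ofBijective (toLoc (Base p G) (R n))
    (toLoc_bij (p := p) (G := Base p G) (cpl_R n)))

theorem loc_apply (n : ZMod p → G) (g : G) : loc n g = QuotientGroup.mk'
    ((R n).subgroupOf (Subgroup.normalizer (R n : Set (Wr p G))))
    (Subgroup.inclusion (inf_le_right.trans (Subgroup.centralizer_le_normalizer _)) (ψ n g)) := rfl

theorem pf_loc {e : G → F} (he : IsClassFun e) (n : ZMod p → G) (g : G) :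
    pf (wrF p e) (QuotientGroup.mk' ((R n).subgroupOf
      (Subgroup.normalizer (R n : Set (Wr p G))))) (loc n g) = e g ^ p := by
  have : NeZero p := ⟨hp.out.ne_zero⟩
  unfold Pool.Agent.N20.DI.pf
  rw [finsum_eq_single _ (Subgroup.inclusion
    (inf_le_right.trans (Subgroup.centralizer_le_normalizer _)) (ψ n g))]
  · rw [if_pos (loc_apply n g).symm]
    exact wrF_ψ he n g
  · intro x hx
    split_ifs with h
    · unfold wrF
      rw [if_neg]
      intro h1
      apply hx
      rw [loc_apply, QuotientGroup.mk'_eq_mk'] at h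
      obtain ⟨r, hr, hr2⟩ := h
      have h2 : (r : Wr p G) ∈ Base p G ⊓ R n := by
        refine ⟨?_, hr⟩
        have h3 : (r : Wr p G) = (x : Wr p G)⁻¹ * (ψ n g : Wr p G) := by
          have h4 := congrArg (fun y : Subgroup.normalizer (R n : Set (Wr p G)) => (y : Wr p G)) hr2
          change (x : Wr p G) * (r : Wr p G) = (ψ n g : Wr p G) at h4
          rw [← h4, inv_mul_cancel_left]
        change (r : Wr p G) ∈ Base p G
        rw [h3]
        exact (Base p G).mul_mem ((Base p G).inv_mem ((mem_base p G).2 h1)) (ψ n g).2.1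
      rw [(cpl_R n).2.2, Subgroup.mem_bot] at h2
      have h3 : r = 1 := Subtype.ext h2
      rw [h3, mul_one] at hr2
      exact hr2
    · rfl

/-- the chains above a complement -/
theorem cpl_term {e : G → F} (he : IsClassFun e) (n : ZMod p → G) (D : ℕ) :
    chs {P : Subgroup (Wr p G) | IsPGroup p P ∧ R n < P ∧
        P ≤ Subgroup.normalizer (R n : Set (Wr p G))}
      (wt (Subgroup.normalizer (R n : Set (Wr p G))) (fw p red (D + 1) (wrF p e) 1)) =
      (p : ℤ) ^ 2 * AD p red D G (fun g => e g ^ p) 1 := by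
  have hz := wrF_inZ p G he
  set N := Subgroup.normalizer (R n : Set (Wr p G)) with hN
  set π := QuotientGroup.mk' ((R n).subgroupOf N) with hπ
  have hRN : R n ≤ N := Subgroup.le_normalizer
  have hcom : ∀ a ∈ N, ∀ b ∈ N, a * b * a⁻¹ * b⁻¹ ∈ Base p G := by
    intro a _ b _
    rw [mem_base]
    change a.right * b.right * a.right⁻¹ * b.right⁻¹ = 1
    rw [mul_comm a.right, mul_inv_cancel_right, mul_inv_cancel]
  have hinf : Base p G ⊓ R n = ⊥ := (cpl_R n).2.2
  have hsurj : Function.Surjective π := QuotientGroup.mk'_surjective _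
  have hker : π.ker = (R n).subgroupOf N := QuotientGroup.ker_mk' _
  have h0 := parts.ch p (Wr p G) (N ⧸ (R n).subgroupOf N) N (R n) hRN (cpl_R n).1 π hsurj hker
    (fw p red (D + 1) (wrF p e) 1)
  rw [h0]
  have h1 : ∀ σ : {σ : Set (Subgroup (N ⧸ (R n).subgroupOf N)) // IsPChain p σ},
      (-1 : ℤ) ^ σ.1.ncard *
      fw p red (D + 1) (wrF p e) 1 (((chainStabilizer σ.1).comap π).map N.subtype) =
      (p : ℤ) ^ 2 * ((-1) ^ σ.1.ncard *
        fw p red D (pf (wrF p e) π) 1 (chainStabilizer σ.1)) := by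
    intro σ
    rw [fw_up red parts.lin hRN hinf hcom le_rfl (m := 1) (by rw [card_R, pow_one]) π hsurj hker
      (fun g _ x => hz.conj g x) hz.supp 1 D]
    unfold Pool.Agent.N20.DI.fw
    ring
  rw [finsum_congr h1, ← mul_finsum]
  congr 1
  have h2 : IsClassFun (pf (wrF p e) π) := pf_class (fun g _ x => hz.conj g x) π hsurj
  have h3 := ad_congr (p := p) red (loc n) h2 1 D
  have h4 : (fun g : G => pf (wrF p e) π (loc n g)) = fun g => e g ^ p :=
    funext fun g => pf_loc he n g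
  rw [h4] at h3
  rw [h3]
  rfl

/-- the sums over the complements -/
theorem sum_cplD {e : G → F} (he : IsClassFun e) (D : ℕ) :
    (Nat.card G : ℤ) * (∑ᶠ S : Subgroup (Wr p G),
      if IsPGroup p S ∧ S ≠ ⊥ ∧ S ≤ (⊤ : Subgroup (Wr p G)) ∧ Base p G ⊓ S = ⊥ then
        chs {P : Subgroup (Wr p G) | IsPGroup p P ∧ S < P ∧
            P ≤ ⊤ ⊓ Subgroup.normalizer (S : Set (Wr p G))}
          (wt (⊤ ⊓ Subgroup.normalizer (S : Set (Wr p G))) (fw p red (D + 1) (wrF p e) 1))
        else 0) =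
      (Nat.card G : ℤ) ^ p * ((p : ℤ) ^ 2 * AD p red D G (fun g => e g ^ p) 1) := by
  have : NeZero p := ⟨hp.out.ne_zero⟩
  have _i : Fintype (Subgroup (Wr p G)) := Fintype.ofFinite _
  have _j : Fintype (ZMod p → G) := Fintype.ofFinite _
  have hi : (Base p G).index = p := card_quot p G
  rw [finsum_eq_sum_of_fintype, Finset.mul_sum]
  have h3 : ∀ S : Subgroup (Wr p G), (Nat.card G : ℤ) *
      (if IsPGroup p S ∧ S ≠ ⊥ ∧ S ≤ (⊤ : Subgroup (Wr p G)) ∧ Base p G ⊓ S = ⊥ then
        chs {P : Subgroup (Wr p G) | IsPGroup p P ∧ S < P ∧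
            P ≤ ⊤ ⊓ Subgroup.normalizer (S : Set (Wr p G))}
          (wt (⊤ ⊓ Subgroup.normalizer (S : Set (Wr p G))) (fw p red (D + 1) (wrF p e) 1))
        else 0) =
      ∑ n : ZMod p → G, if R n = S then (p : ℤ) ^ 2 * AD p red D G (fun g => e g ^ p) 1
        else 0 := by
    intro S
    rw [← Finset.sum_filter, Finset.sum_const, nsmul_eq_mul, ← Fintype.card_subtype,
      ← Nat.card_eq_fintype_card]
    split_ifs with h
    · have hS : Pool.Agent.U259.WP.Cpl S :=
        Pool.Agent.R674.Ce.cpl_of (p := p) (G := Base p G) hi h.1 h.2.1 h.2.2.2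
      obtain ⟨m, rfl⟩ := exists_R hS
      rw [card_fib (cpl_R m), top_inf_eq, cpl_term red he m D]
    · have h4 : IsEmpty {n : ZMod p → G // R n = S} := by
        refine ⟨fun n => h ?_⟩
        have h5 : Pool.Agent.U259.WP.Cpl S := n.2 ▸ cpl_R n.1
        exact ⟨h5.1, Pool.Agent.R674.Ce.cpl_ne (p := p) (G := Base p G) hi h5, le_top, h5.2.2⟩
      rw [Nat.card_of_isEmpty (α := {n : ZMod p → G // R n = S}), Nat.cast_zero, zero_mul, mul_zero]
  rw [Finset.sum_congr rfl fun S _ => h3 S, Finset.sum_comm]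
  simp only [Finset.sum_ite_eq, Finset.mem_univ, if_true]
  rw [Finset.sum_const, Finset.card_univ, nsmul_eq_mul, ← Nat.card_eq_fintype_card, Nat.card_fun,
    Nat.card_zmod]
  push_cast
  rfl

/-- **the formula for `q = p`** -/
theorem form_eq {e : G → F} (he : IsIdem e) (D : ℕ) :
    (p : ℤ) * Sd p red (D + 1) (Wr p G) (wrF p e) 1 =
      PowerSeries.coeff (D + 1) (gf p red G e ^ p) + (p : ℤ) ^ 2 * Sq p p red D G e -
        Sq p p red (D + 1) G e - (p : ℤ) ^ 2 * Sd p red D G (fun g => e g ^ p) 1 := by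
  have : NeZero p := ⟨hp.out.ne_zero⟩
  have hz := wrF_inZ p G he.cl
  have h1 := ad_sd (p := p) red hz.conj 1 (D + 1)
  have hdec := parts.dec p (Wr p G) (Base p G) ⊤ le_top (by
    intro a _ b _
    rw [mem_base]
    change a.right * b.right * a.right⁻¹ * b.right⁻¹ = 1
    rw [mul_comm a.right, mul_inv_cancel_right, mul_inv_cancel])
    (fw p red (D + 1) (wrF p e) 1)
  rw [ad_chs red, hdec, tn red he (D + 1), card_wr'] at h1
  have h2 : Nat.card (Base p G) = Nat.card G ^ p := by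
    rw [← Nat.card_congr (bE (p := p) (G := G)).toEquiv, Nat.card_fun, Nat.card_zmod]
  rw [h2] at h1
  have h3 : Ss p p red (D + 1) G e = Sq p p red D G e := by
    unfold Ss
    rw [if_pos rfl, if_neg (Nat.succ_ne_zero D), Nat.add_sub_cancel]
  rw [h3] at h1
  have h4 := sum_cplD (p := p) red he.cl D
  have hcl : IsClassFun (fun g => e g ^ p) := fun g x => by
    change e _ ^ p = e x ^ p
    rw [he.cl]
  rw [ad_sd red hcl] at h4
  push_cast at h1
  have h6 : (Nat.card G : ℤ) ≠ 0 := by exact_mod_cast Nat.card_pos.ne'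
  have h7 : (Nat.card G : ℤ) ^ p ≠ 0 := pow_ne_zero _ h6
  apply mul_left_cancel₀ (mul_ne_zero h6 h7)
  linear_combination -(Nat.card G : ℤ) * h1 - h4

end eq

end Pool.Agent.U259.WD
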