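import Pool.Agent.U259.WD.Blk
import Pool.Agent.K3h85.IN.Field

/-!
# Frobenius twists of class functions and Galois conjugate characters
-/

set_option autoImplicit false
set_option linter.unusedSectionVars false

open scoped Classical BigOperators

noncomputable section

namespace Pool.Agent.U259.WD

open Pool.Agent.Y63.NV
open Pool.Agent.Y63.KR
open Pool.Agent.Y63.AWC (IsIrreducibleCharacter)
open Pool.Agent.N20.KB
open Pool.Agent.N20.DI (Dg HasDef Kd fw)

section fieldpart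

variable {p : ℕ} [hp : Fact p.Prime] {F : Type} [Field F] [CharP F p]
  (red : integralClosure ℤ ℂ →+* F)

/-- the exponent -/
theorem exists_exp (N : ℕ) (hN : 0 < N) : ∃ c : ℕ, Nat.Coprime c N ∧ ∀ r : F, r ^ N = 1 →
    r ^ c = r ^ p := by
  obtain ⟨a, m, hm, rfl⟩ := Nat.exists_eq_pow_mul_and_not_dvd hN.ne' p hp.out.ne_one
  have hcop : Nat.Coprime p m := (Nat.Prime.coprime_iff_not_dvd hp.out).2 hm
  have hcop' : Nat.Coprime (p ^ a) m := hcop.pow_left a
  let c := Nat.chineseRemainder hcop' 1 p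
  refine ⟨c.1, ?_, fun r hr => ?_⟩
  · refine Nat.Coprime.mul_right ?_ ?_
    · have h1 := c.2.1.gcd_eq
      rw [Nat.gcd_one_left] at h1
      exact h1
    · have h1 := c.2.2.gcd_eq
      rw [Nat.Coprime, h1]
      exact hcop
  · have h1 : r ^ m = 1 := by
      have h2 := (ExpChar.pow_prime_pow_mul_eq_one_iff p a m r).1
      exact h2 hr
    exact pow_eq_pow_of_modEq c.2.2 h1

/-- the integers of the cyclotomic field -/
theorem int_adj (N : ℕ) (hN : 0 < N) : ∃ ζ : ℂ, ζ ^ N = 1 ∧ ∃ K : Subfield ℂ,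
    (∀ z : ℂ, z ^ N = 1 → z ∈ K) ∧ ∀ y ∈ K, IsIntegral ℤ y → y ∈ Algebra.adjoin ℤ {ζ} := by
  have : NeZero N := ⟨hN.ne'⟩
  have : NeZero ((N : ℕ) : ℚ) := ⟨by exact_mod_cast hN.ne'⟩
  have : IsCyclotomicExtension {N} ℚ (CyclotomicField N ℚ) :=
    CyclotomicField.isCyclotomicExtension N ℚ
  let j : CyclotomicField N ℚ →ₐ[ℚ] ℂ := IsAlgClosed.lift
  have hz : IsPrimitiveRoot (IsCyclotomicExtension.zeta N ℚ (CyclotomicField N ℚ)) N :=
    IsCyclotomicExtension.zeta_spec N ℚ (CyclotomicField N ℚ)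
  have hjz : IsPrimitiveRoot (j (IsCyclotomicExtension.zeta N ℚ (CyclotomicField N ℚ))) N :=
    hz.map_of_injective j.injective
  refine ⟨j (IsCyclotomicExtension.zeta N ℚ (CyclotomicField N ℚ)), hjz.pow_eq_one,
    (j : CyclotomicField N ℚ →+* ℂ).fieldRange, ?_, ?_⟩
  · intro z hz1
    obtain ⟨i, -, rfl⟩ := hjz.eq_pow_of_pow_eq_one hz1
    exact ⟨IsCyclotomicExtension.zeta N ℚ (CyclotomicField N ℚ) ^ i, map_pow _ _ _⟩
  · rintro _ ⟨y, rfl⟩ hy
    have h1 : IsIntegral ℤ y := by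
      have h2 := isIntegral_algHom_iff (R := ℤ) (j.restrictScalars ℤ) j.injective (x := y)
      exact h2.1 hy
    have h3 := IsCyclotomicExtension.Rat.isIntegralClosure_adjoin_singleton hz
    obtain ⟨w, hw⟩ := h3.isIntegral_iff.1 h1
    have h4 : y ∈ Algebra.adjoin ℤ {IsCyclotomicExtension.zeta N ℚ (CyclotomicField N ℚ)} := by
      rw [← hw]
      exact w.2
    have h5 : (j.restrictScalars ℤ) y ∈ (Algebra.adjoin ℤ
        {IsCyclotomicExtension.zeta N ℚ (CyclotomicField N ℚ)}).map (j.restrictScalars ℤ) :=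
      ⟨y, h4, rfl⟩
    rw [AlgHom.map_adjoin_singleton] at h5
    exact h5

/-- **an automorphism of `ℂ` which lifts the Frobenius automorphism** -/
theorem frob_aut (N : ℕ) (hN : 0 < N) : ∃ (σ : ℂ ≃+* ℂ) (K : Subfield ℂ),
    (∀ z : ℂ, z ^ N = 1 → z ∈ K) ∧ ∀ y ∈ K, redC red (σ y) = redC red y ^ p := by
  obtain ⟨c, hc, hcF⟩ := exists_exp (p := p) (F := F) N hN
  obtain ⟨σ, hσ⟩ := Pool.Agent.K3h85.IN.exists_pow_aut N c hN hc
  obtain ⟨ζ, hζ, K, hK1, hK2⟩ := int_adj N hN
  refine ⟨σ, K, hK1, fun y hy => ?_⟩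
  have hint : ∀ z : ℂ, IsIntegral ℤ z → IsIntegral ℤ (σ z) := fun z hz =>
    hz.map (σ : ℂ →+* ℂ).toIntAlgHom
  by_cases hi : IsIntegral ℤ y
  · have hζi : IsIntegral ℤ ζ := ⟨Polynomial.X ^ N - 1, Polynomial.monic_X_pow_sub_C _ hN.ne', by
      simp [hζ]⟩
    have key : ∀ x ∈ Algebra.adjoin ℤ {ζ}, ∀ h : IsIntegral ℤ x, red ⟨σ x, hint x h⟩ =
        red ⟨x, h⟩ ^ p := by
      intro x hx
      have hall : ∀ x ∈ Algebra.adjoin ℤ {ζ}, IsIntegral ℤ x := fun x hx =>
        Algebra.adjoin_le (S := integralClosure ℤ ℂ) (by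
          rintro _ rfl
          exact hζi) hx
      induction hx using Algebra.adjoin_induction with
      | mem x hx =>
        intro h
        rw [Set.mem_singleton_iff] at hx
        subst hx
        have h1 : (⟨σ x, hint x h⟩ : integralClosure ℤ ℂ) = ⟨x, h⟩ ^ c := Subtype.ext (hσ x hζ)
        rw [h1, map_pow]
        refine hcF _ ?_
        rw [← map_pow]
        have h2 : (⟨x, h⟩ : integralClosure ℤ ℂ) ^ N = 1 := Subtype.ext hζ
        rw [h2, map_one]
      | algebraMap n =>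
        intro h
        have h1 : (⟨σ (algebraMap ℤ ℂ n), hint _ h⟩ : integralClosure ℤ ℂ) = (n : integralClosure ℤ ℂ) :=
          Subtype.ext (by simp)
        have h2 : (⟨algebraMap ℤ ℂ n, h⟩ : integralClosure ℤ ℂ) = (n : integralClosure ℤ ℂ) :=
          Subtype.ext (by simp)
        rw [h1, h2, map_intCast, ← frobenius_def, map_intCast]
      | add x y hx hy ihx ihy =>
        intro h
        have h1 := ihx (hall x hx)
        have h2 := ihy (hall y hy)
        have h3 : (⟨σ (x + y), hint _ h⟩ : integralClosure ℤ ℂ) =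
            ⟨σ x, hint _ (hall x hx)⟩ + ⟨σ y, hint _ (hall y hy)⟩ := Subtype.ext (map_add σ x y)
        have h4 : (⟨x + y, h⟩ : integralClosure ℤ ℂ) = ⟨x, hall x hx⟩ + ⟨y, hall y hy⟩ := rfl
        rw [h3, h4, map_add, map_add, h1, h2, add_pow_char]
      | mul x y hx hy ihx ihy =>
        intro h
        have h1 := ihx (hall x hx)
        have h2 := ihy (hall y hy)
        have h3 : (⟨σ (x * y), hint _ h⟩ : integralClosure ℤ ℂ) =
            ⟨σ x, hint _ (hall x hx)⟩ * ⟨σ y, hint _ (hall y hy)⟩ := Subtype.ext (map_mul σ x y)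
        have h4 : (⟨x * y, h⟩ : integralClosure ℤ ℂ) = ⟨x, hall x hx⟩ * ⟨y, hall y hy⟩ := rfl
        rw [h3, h4, map_mul, map_mul, h1, h2, mul_pow]
    have h1 := key y (hK2 y hy hi) hi
    unfold redC
    rw [dif_pos hi, dif_pos (hint y hi)]
    exact h1
  · have h2 : ¬ IsIntegral ℤ (σ y) := fun h => hi (by
      have h3 := h.map (σ.symm : ℂ →+* ℂ).toIntAlgHom
      simpa using h3)
    unfold redC
    rw [dif_neg hi, dif_neg h2, zero_pow hp.out.ne_zero]

end fieldpart

section chars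

/-- the character values lie in the cyclotomic field -/
theorem char_mem {H : Type} [Group H] [Finite H] {N : ℕ} (hN : Nat.card H ∣ N) {K : Subfield ℂ}
    (hK : ∀ z : ℂ, z ^ N = 1 → z ∈ K) {χ : H → ℂ} (hχ : IsIrreducibleCharacter χ) (x : H) :
    χ x ∈ K := by
  obtain ⟨V, _, _, _, ρ, -, rfl⟩ := hχ
  change LinearMap.trace ℂ V (ρ x) ∈ K
  rw [Module.End.trace_eq_sum_roots_charpoly_of_splits (IsAlgClosed.splits _)]
  refine multiset_sum_mem _ fun z hz => hK z ?_
  have h1 : (ρ x).charpoly.IsRoot z := (Polynomial.mem_roots'.1 hz).2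
  have h2 : Module.End.HasEigenvalue (ρ x) z :=
    (Module.End.hasEigenvalue_iff_isRoot_charpoly _ _).2 h1
  obtain ⟨v, hv⟩ := h2.exists_hasEigenvector
  have h3 := hv.pow_apply N
  have h4 : (ρ x) ^ N = 1 := by
    obtain ⟨k, hk⟩ := hN
    rw [← map_pow, hk, pow_mul, pow_card_eq_one', one_pow, map_one]
  rw [h4] at h3
  have h5 : (z ^ N - 1) • v = 0 := by
    rw [sub_smul, ← h3, one_smul]
    simp
  rcases smul_eq_zero.1 h5 with h6 | h6
  · exact sub_eq_zero.1 h6
  · exact absurd h6 hv.2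

variable {p : ℕ} [hp : Fact p.Prime] {F : Type} [Field F] [CharP F p]
  (red : integralClosure ℤ ℂ →+* F)

/-- the central characters of Galois conjugates -/
theorem cv_gal {H : Type} [Group H] [Finite H] {N : ℕ} (hN : Nat.card H ∣ N) {K : Subfield ℂ}
    (hK : ∀ z : ℂ, z ^ N = 1 → z ∈ K) {σ : ℂ ≃+* ℂ} (hσ : ∀ y ∈ K, redC red (σ y) = redC red y ^ p)
    {χ : H → ℂ} (hχ : IsIrreducibleCharacter χ) (e : H → F) :
    centralValue red (fun x => σ (χ x)) (fun x => e x ^ p) = centralValue red χ e ^ p := by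
  unfold centralValue
  have _i : Fintype (ConjClasses H) := Fintype.ofFinite _
  rw [finsum_eq_sum_of_fintype, finsum_eq_sum_of_fintype, ← frobenius_def, map_sum]
  refine Finset.sum_congr rfl fun C _ => ?_
  rw [frobenius_def, mul_pow, ← hσ]
  · congr 2
    rw [map_div₀, map_mul, map_natCast]
  · exact K.div_mem (K.mul_mem (natCast_mem K _) (char_mem hN hK hχ _)) (char_mem hN hK hχ _)

/-- the numbers of characters for the Frobenius twist -/
theorem kd_frob {H : Type} [Group H] [Finite H] {N : ℕ} (hN : Nat.card H ∣ N) {K : Subfield ℂ}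
    (hK : ∀ z : ℂ, z ^ N = 1 → z ∈ K) {σ : ℂ ≃+* ℂ} (hσ : ∀ y ∈ K, redC red (σ y) = redC red y ^ p)
    (e : H → F) (D : ℕ) :
    Kd p red D (fun x => e x ^ p) 1 = Kd p red D e 1 := by
  have hdeg : ∀ (τ : ℂ ≃+* ℂ) {χ : H → ℂ}, HasDef p D χ → HasDef p D (fun x => τ (χ x)) := by
    rintro τ χ ⟨n, hn, hn2⟩
    refine ⟨n, ?_, hn2⟩
    change τ (χ 1) = n
    rw [hn, map_natCast]
  have hone : ∀ {χ : H → ℂ}, IsIrreducibleCharacter χ →
      (centralValue red (fun x => σ (χ x)) (fun x => e x ^ p) = 1 ↔ centralValue red χ e = 1) := by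
    intro χ hχ
    rw [cv_gal red hN hK hσ hχ e]
    constructor
    · intro h
      have h2 : frobenius F p (centralValue red χ e) = frobenius F p 1 := by
        rw [frobenius_def, frobenius_def, one_pow, h]
      exact frobenius_inj F p h2
    · intro h
      rw [h, one_pow]
  unfold Kd
  refine Nat.card_congr
    { toFun := fun χ => ⟨fun x => σ.symm (χ.1 x), Pool.Agent.Q90.WR.irr_gal σ.symm χ.2.1,
        hdeg σ.symm χ.2.2.1, ?_⟩
      invFun := fun χ => ⟨fun x => σ (χ.1 x), Pool.Agent.Q90.WR.irr_gal σ χ.2.1,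
        hdeg σ χ.2.2.1, (hone χ.2.1).2 χ.2.2.2⟩
      left_inv := fun χ => Subtype.ext (funext fun x => by simp)
      right_inv := fun χ => Subtype.ext (funext fun x => by simp) }
  rw [← hone (Pool.Agent.Q90.WR.irr_gal σ.symm χ.2.1)]
  have h1 : (fun x => σ (σ.symm (χ.1 x))) = χ.1 := funext fun x => by simp
  rw [h1]
  exact χ.2.2.2

/-- **Dade's alternating sums are invariant under the Frobenius twist** -/
theorem sd_frob {G : Type} [Group G] [Finite G] (e : G → F) (D : ℕ) :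
    Sd p red D G (fun g => e g ^ p) 1 = Sd p red D G e 1 := by
  obtain ⟨σ, K, hK, hσ⟩ := frob_aut (p := p) red (Nat.card G) Nat.card_pos
  unfold Sd
  congr 1
  funext H
  rw [kd_frob red (Subgroup.card_subgroup_dvd_card H) hK hσ (fun x : H => e x) D]

end chars

end Pool.Agent.U259.WD
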