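import Pool.Agent.U259.WD.Val

/-!
# Numbers of characters of given defect of wreath products with `C_q`
-/

set_option autoImplicit false
set_option linter.unusedSectionVars false

open scoped Classical BigOperators

noncomputable section

namespace Pool.Agent.U259.WD

open Pool.Agent.Y63.NV
open Pool.Agent.Y63.KR
open Pool.Agent.Y63.AWC (IsIrreducibleCharacter)
open Pool.Agent.N20.KB
open Pool.Agent.N85.WM (Wr Base wrF IsIdem shiftHom mem_base card_wr card_quot wrF_inZ)
open Pool.Agent.N85.WM.Wpi (toIrr ofIrr cv_tens)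
open Pool.Agent.N19.RB (tens exists_tens tens_one tens_inj tens_irr)
open Pool.Agent.N20.DI (Dg HasDef Kd sN S_CLIFF)
open Pool.Agent.R674.Tw (Fixes)
open Pool.Agent.U259.WP (stab le_stab sN_stab dvd_sN bE cyc_quot dg_le NoDz const_of)
open SemidirectProduct (inl inr)

variable {p q : ℕ} [hp : Fact p.Prime] [hq : Fact q.Prime] {F : Type} [Field F]
  (red : integralClosure ℤ ℂ →+* F) {L : Type} [Group L] [Finite L]

/-- the number of characters of defect `D / q`, if `q` divides `D` -/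
def Kq (p q : ℕ) {F : Type} [Field F] (red : integralClosure ℤ ℂ →+* F) (D : ℕ) {L : Type} [Group L]
    (e : L → F) : ℕ := if q ∣ D then Kd p red (D / q) e 1 else 0

/-- the same, shifted by `1` if `q = p` -/
def Ks (p q : ℕ) {F : Type} [Field F] (red : integralClosure ℤ ℂ →+* F) (D : ℕ) {L : Type} [Group L]
    (e : L → F) : ℕ :=
  if q = p then (if D = 0 then 0 else Kq p q red (D - 1) e) else Kq p q red D e

/-- being invariant -/
def Inv {M : Type} [Group M] {N : Subgroup M} (ψ : N → ℂ) : Prop := ∀ m : M, Fixes m ψ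

instance fin_wr : Finite (Wr q L) :=
  have : NeZero q := ⟨hq.out.ne_zero⟩
  Finite.of_equiv _ (SemidirectProduct.equivProd (φ := shiftHom q L)).symm

theorem card_wr' : Nat.card (Wr q L) = q * Nat.card (Base q L) := by
  have h1 := Subgroup.card_mul_index (Base q L)
  have h2 : (Base q L).index = q := card_quot q L
  rw [h2] at h1
  rw [← h1, mul_comm]

theorem sN_eq {ψ : Base q L → ℂ} (hψ : IsIrreducibleCharacter ψ) :
    sN (Base q L) ψ = if Inv ψ then q * Nat.card (Base q L) else Nat.card (Base q L) := by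
  have hle : Base q L ≤ stab ψ := le_stab (Pool.Agent.Y624.NV.irr_class hψ)
  have h1 := Subgroup.relIndex_mul_index hle
  have h2 : (Base q L).index = q := card_quot q L
  rw [h2] at h1
  have h3 : (stab ψ).index = 1 ∨ (stab ψ).index = q :=
    (Nat.dvd_prime hq.out).1 ⟨_, by rw [mul_comm]; exact h1.symm⟩
  have h4 := Subgroup.card_mul_index (stab ψ)
  rw [sN_stab]
  split_ifs with h
  · have h5 : stab ψ = ⊤ := by
      rw [eq_top_iff]
      intro m _
      exact h m
    rw [h5, Subgroup.card_top, card_wr']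
  · rcases h3 with h3 | h3
    · exfalso
      apply h
      intro m
      have h5 := Subgroup.index_eq_one.1 h3
      have h6 : m ∈ stab ψ := by rw [h5]; exact Subgroup.mem_top _
      exact h6
    · rw [h3, card_wr', mul_comm] at h4
      exact Nat.eq_of_mul_eq_mul_left hq.out.pos h4

theorem fin_irr'' {J : Type} [Group J] [Finite J] (P : (J → ℂ) → Prop) :
    Finite {ψ : J → ℂ // IsIrreducibleCharacter ψ ∧ P ψ} :=
  ((Pool.Agent.Y914.NV.irr ℂ J).1.subset fun _ h => h.1).to_subtype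

/-- the number of the characters of the base group with a property -/
def nB {J : Type} [Group J] (P : (J → ℂ) → Prop) : ℕ :=
  Nat.card {ψ : J → ℂ // IsIrreducibleCharacter ψ ∧ P ψ}

theorem nB_congr {J : Type} [Group J] {P P' : (J → ℂ) → Prop}
    (h : ∀ ψ, IsIrreducibleCharacter ψ → (P ψ ↔ P' ψ)) : nB P = nB P' := by
  unfold nB
  exact Nat.card_congr (Equiv.subtypeEquivRight fun ψ => and_congr_right fun hψ => h ψ hψ)

theorem nB_split {J : Type} [Group J] [Finite J] (P Q : (J → ℂ) → Prop) :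
    nB P = nB (fun ψ => P ψ ∧ Q ψ) + nB (fun ψ => P ψ ∧ ¬ Q ψ) := by
  have i1 := fin_irr'' (fun ψ : J → ℂ => P ψ ∧ Q ψ)
  have i2 := fin_irr'' (fun ψ : J → ℂ => P ψ ∧ ¬ Q ψ)
  unfold nB
  rw [← Nat.card_sum]
  refine Nat.card_congr
    { toFun := fun ψ => if h : Q ψ.1 then Sum.inl ⟨ψ.1, ψ.2.1, ψ.2.2, h⟩
        else Sum.inr ⟨ψ.1, ψ.2.1, ψ.2.2, h⟩
      invFun := fun s => match s with
        | Sum.inl ψ => ⟨ψ.1, ψ.2.1, ψ.2.2.1⟩
        | Sum.inr ψ => ⟨ψ.1, ψ.2.1, ψ.2.2.1⟩
      left_inv := fun ψ => ?_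
      right_inv := fun s => ?_ }
  · by_cases h : Q ψ.1
    · simp [h]
    · simp [h]
  · rcases s with ψ | ψ
    · have h := ψ.2.2.2
      simp [h]
    · have h := ψ.2.2.2
      simp [h]

theorem finsum_two {J : Type} [Group J] [Finite J] (P Q : (J → ℂ) → Prop) (f : (J → ℂ) → ℕ)
    (a b : ℕ) (ha : ∀ ψ, IsIrreducibleCharacter ψ → P ψ → Q ψ → f ψ = a)
    (hb : ∀ ψ, IsIrreducibleCharacter ψ → P ψ → ¬ Q ψ → f ψ = b) :
    (∑ᶠ ψ : {ψ : J → ℂ // IsIrreducibleCharacter ψ ∧ P ψ}, f ψ.1) =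
      a * nB (fun ψ : J → ℂ => P ψ ∧ Q ψ) + b * nB (fun ψ : J → ℂ => P ψ ∧ ¬ Q ψ) := by
  have i0 := fin_irr'' P
  have _i : Fintype {ψ : J → ℂ // IsIrreducibleCharacter ψ ∧ P ψ} := Fintype.ofFinite _
  rw [finsum_eq_sum_of_fintype, ← Finset.sum_filter_add_sum_filter_not Finset.univ
    (fun ψ : {ψ : J → ℂ // IsIrreducibleCharacter ψ ∧ P ψ} => Q ψ.1)]
  have h1 : ∑ ψ ∈ Finset.univ.filter
      (fun ψ : {ψ : J → ℂ // IsIrreducibleCharacter ψ ∧ P ψ} => Q ψ.1), f ψ.1 =
      a * nB (fun ψ : J → ℂ => P ψ ∧ Q ψ) := by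
    rw [Finset.sum_congr rfl (g := fun _ => a) fun ψ hψ =>
      ha ψ.1 ψ.2.1 ψ.2.2 (Finset.mem_filter.1 hψ).2, Finset.sum_const, smul_eq_mul, mul_comm,
      ← Fintype.card_subtype, ← Nat.card_eq_fintype_card]
    congr 1
    unfold nB
    exact Nat.card_congr
      { toFun := fun ψ => ⟨ψ.1.1, ψ.1.2.1, ψ.1.2.2, ψ.2⟩
        invFun := fun ψ => ⟨⟨ψ.1, ψ.2.1, ψ.2.2.1⟩, ψ.2.2.2⟩
        left_inv := fun _ => rfl
        right_inv := fun _ => rfl }
  have h2 : ∑ ψ ∈ Finset.univ.filter
      (fun ψ : {ψ : J → ℂ // IsIrreducibleCharacter ψ ∧ P ψ} => ¬ Q ψ.1), f ψ.1 =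
      b * nB (fun ψ : J → ℂ => P ψ ∧ ¬ Q ψ) := by
    rw [Finset.sum_congr rfl (g := fun _ => b) fun ψ hψ =>
      hb ψ.1 ψ.2.1 ψ.2.2 (Finset.mem_filter.1 hψ).2, Finset.sum_const, smul_eq_mul, mul_comm,
      ← Fintype.card_subtype, ← Nat.card_eq_fintype_card]
    congr 1
    unfold nB
    exact Nat.card_congr
      { toFun := fun ψ => ⟨ψ.1.1, ψ.1.2.1, ψ.1.2.2, ψ.2⟩
        invFun := fun ψ => ⟨⟨ψ.1, ψ.2.1, ψ.2.2.1⟩, ψ.2.2.2⟩
        left_inv := fun _ => rfl
        right_inv := fun _ => rfl }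
  rw [h1, h2]

/-- the invariant characters of the base group -/
theorem inv_iff {ψ : Base q L → ℂ} (hψ : IsIrreducibleCharacter ψ) :
    Inv ψ ↔ ∃ θ : L → ℂ, IsIrreducibleCharacter θ ∧ ∀ x : ZMod q → L, ψ (bE x) = ∏ i, θ (x i) := by
  have : NeZero q := ⟨hq.out.ne_zero⟩
  have _f2 : Fintype L := Fintype.ofFinite _
  have hψ' : IsIrreducibleCharacter (fun x : ZMod q → L => ψ (bE x)) := irr_comp' bE hψ
  constructor
  · intro h
    obtain ⟨θ, hθ, hθe⟩ := exists_tens (K := fun _ : ZMod q => L) (toIrr hψ')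
    have h1 : ∀ x : ZMod q → L, ψ (bE fun i => x (i - 1)) = ψ (bE x) := by
      intro x
      refine h (inr (Multiplicative.ofAdd 1)) (bE x) (bE fun i => x (i - 1)) ?_
      change (inl (fun i => x (i - 1)) : Wr q L) = inr (Multiplicative.ofAdd 1) * inl x *
        (inr (Multiplicative.ofAdd 1))⁻¹
      rw [← map_inv, ← SemidirectProduct.inl_aut]
      congr 1
    have h2 : θ = fun i => θ (i - 1) := by
      have h3 : tens θ = tens (fun i => θ (i + 1)) := by
        funext x
        have h4 := h1 x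
        rw [congrFun hθe x, congrFun hθe (fun i => x (i - 1))] at h4
        rw [← h4]
        change ∏ i, θ i (x (i - 1)) = ∏ i, θ (i + 1) (x i)
        refine (Fintype.prod_equiv (Equiv.subRight (1 : ZMod q)) _ _ fun i => ?_)
        simp
      have h5 := tens_inj hθ (fun i => hθ (i + 1)) h3
      funext i
      have h6 := congrFun h5 (i - 1)
      rw [sub_add_cancel] at h6
      exact h6.symm
    have h3 : ∀ i, θ i = θ 0 := by
      have h4 : ∀ k : ℕ, θ (k : ZMod q) = θ 0 := by
        intro k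
        induction k with
        | zero => rw [Nat.cast_zero]
        | succ k ih =>
          have h5 := congrFun h2 ((k + 1 : ℕ) : ZMod q)
          rw [h5]
          change θ (((k + 1 : ℕ) : ZMod q) - 1) = θ 0
          rw [Nat.cast_succ, add_sub_cancel_right, ih]
      intro i
      rw [← ZMod.natCast_zmod_val i]
      exact h4 _
    refine ⟨θ 0, ofIrr (hθ 0), fun x => ?_⟩
    rw [congrFun hθe x]
    change ∏ i, θ i (x i) = _
    exact Finset.prod_congr rfl fun i _ => by rw [h3]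
  · rintro ⟨θ, hθ, h⟩ m n n' hn
    have h1 := Pool.Agent.Y624.NV.irr_class hθ
    obtain ⟨x, rfl⟩ := (bE (p := q) (G := L)).surjective n
    obtain ⟨x', rfl⟩ := (bE (p := q) (G := L)).surjective n'
    rw [h, h]
    have h2 : ∀ i, x' i = m.left i * x (i - m.right.toAdd) * (m.left i)⁻¹ := by
      intro i
      have h3 := congrFun (congrArg SemidirectProduct.left hn) i
      change x' i = (m * inl x * m⁻¹).left i at h3
      rw [h3]
      change (m * inl x).left i * ((m⁻¹).left (i - (m * inl x).right.toAdd)) = _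
      have h4 : (m * inl x).left i = m.left i * x (i - m.right.toAdd) := rfl
      have h5 : (m * inl x : Wr q L).right = m.right := mul_one _
      have h6 : ∀ j, (m⁻¹).left j = (m.left (j + m.right.toAdd))⁻¹ := by
        intro j
        rw [SemidirectProduct.inv_left]
        change (m.left (j - (m.right⁻¹).toAdd))⁻¹ = _
        rw [toAdd_inv, sub_neg_eq_add]
      rw [h4, h5, h6, sub_add_cancel]
    rw [Finset.prod_congr rfl fun i _ => by rw [h2 i, h1]]
    exact (Fintype.prod_equiv (Equiv.subRight m.right.toAdd) _ _ fun i => rfl)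

/-- the invariant characters of given defect of the base group -/
theorem nB_inv {e : L → F} (he : IsClassFun e)
    (h01 : ∀ θ : L → ℂ, IsIrreducibleCharacter θ → centralValue red θ e = 0 ∨
      centralValue red θ e = 1) (D : ℕ) :
    nB (fun ψ : Base q L → ℂ => (HasDef p D ψ ∧
      centralValue red ψ (fun n : Base q L => wrF q e n) = 1) ∧ Inv ψ) = Kq p q red D e := by
  have : NeZero q := ⟨hq.out.ne_zero⟩
  have _f2 : Fintype L := Fintype.ofFinite _
  have hz := wrF_inZ q L he
  have hcard : (Nat.card (Base q L)).factorization p = q * (Nat.card L).factorization p := by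
    rw [← Nat.card_congr (bE (p := q) (G := L)).toEquiv, Nat.card_fun, Nat.card_zmod,
      Nat.factorization_pow, Finsupp.smul_apply, smul_eq_mul]
  -- the conditions agree
  have key : ∀ θ : L → ℂ, IsIrreducibleCharacter θ → ∀ ψ : Base q L → ℂ,
      IsIrreducibleCharacter ψ → (∀ x : ZMod q → L, ψ (bE x) = ∏ i, θ (x i)) →
      ((HasDef p D ψ ∧ centralValue red ψ (fun n : Base q L => wrF q e n) = 1) ↔
        q ∣ D ∧ HasDef p (D / q) θ ∧ centralValue red θ e = 1) := by
    intro θ hθ ψ hψ h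
    have h1 : centralValue red ψ (fun n : Base q L => wrF q e n) =
        centralValue red θ e ^ q := by
      have h4 := Pool.Agent.Y286.NV.centralValue_comp red (bE (p := q) (G := L)) ψ
        (Pool.Agent.Y286.NV.irr_class hψ) (fun n : Base q L => wrF q e n)
        (fun g x => hz.conj g x)
      rw [← h4]
      have h5 : (fun x : ZMod q → L => wrF q e ((bE x : Base q L) : Wr q L)) =
          fun x => ∏ i, e (x i) := by
        funext x
        change wrF q e (inl x : Wr q L) = _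
        unfold wrF
        rw [if_pos (by rfl)]
        rfl
      have h6 : (fun x : ZMod q → L => ψ (bE x)) = tens (fun _ : ZMod q => θ) := by
        funext x
        rw [h x]
        rfl
      rw [h5, h6]
      have h7 := cv_tens red (fun _ : ZMod q => hθ) (fun _ => e) (fun _ => he)
      rw [h7, Finset.prod_const, Finset.card_univ, ZMod.card]
    have h2 : centralValue red θ e ^ q = 1 ↔ centralValue red θ e = 1 := by
      constructor
      · intro h3
        refine (h01 θ hθ).resolve_left fun h0 => ?_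
        rw [h0, zero_pow hq.out.ne_zero] at h3
        exact zero_ne_one h3
      · intro h3
        rw [h3, one_pow]
    rw [h1, h2]
    obtain ⟨n, hn, hn0, hle⟩ := dg_le (p := p) hθ
    have h3 : ψ 1 = ((n ^ q : ℕ) : ℂ) := by
      have h4 := h 1
      rw [map_one] at h4
      rw [h4]
      simp only [Pi.one_apply, hn, Finset.prod_const, Finset.card_univ, ZMod.card]
      push_cast
      rfl
    have h4 : HasDef p D ψ ↔ q * n.factorization p + D = q * (Nat.card L).factorization p := by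
      constructor
      · rintro ⟨m, hm, hm2⟩
        rw [h3] at hm
        have h5 : n ^ q = m := by exact_mod_cast hm
        rw [← h5, Nat.factorization_pow, Finsupp.smul_apply, smul_eq_mul, hcard] at hm2
        exact hm2
      · intro h5
        refine ⟨n ^ q, h3, ?_⟩
        rw [Nat.factorization_pow, Finsupp.smul_apply, smul_eq_mul, hcard]
        exact h5
    have h5 : ∀ d, HasDef p d θ ↔ n.factorization p + d = (Nat.card L).factorization p := by
      intro d
      constructor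
      · rintro ⟨m, hm, hm2⟩
        rw [hn] at hm
        have h6 : n = m := by exact_mod_cast hm
        rw [h6]
        exact hm2
      · intro h6
        exact ⟨n, hn, h6⟩
    rw [h4, h5]
    constructor
    · rintro ⟨h6, h7⟩
      have h8 : q ∣ D := by
        have h9 : q ∣ q * n.factorization p + D := h6 ▸ dvd_mul_right _ _
        exact (Nat.dvd_add_right (dvd_mul_right _ _)).1 h9
      obtain ⟨d, rfl⟩ := h8
      refine ⟨dvd_mul_right _ _, ?_, h7⟩
      rw [Nat.mul_div_cancel_left _ hq.out.pos]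
      rw [← mul_add] at h6
      exact Nat.eq_of_mul_eq_mul_left hq.out.pos h6
    · rintro ⟨⟨d, rfl⟩, h6, h7⟩
      rw [Nat.mul_div_cancel_left _ hq.out.pos] at h6
      refine ⟨?_, h7⟩
      rw [← mul_add, h6]
  unfold Kq
  split_ifs with hD
  · symm
    unfold Kd nB
    let f : (L → ℂ) → Base q L → ℂ := fun θ n => ∏ i, θ ((n : Wr q L).left i)
    have hf : ∀ (θ : L → ℂ) (x : ZMod q → L), f θ (bE x) = ∏ i, θ (x i) := fun _ _ => rfl
    have hfi : ∀ θ : L → ℂ, IsIrreducibleCharacter θ → IsIrreducibleCharacter (f θ) := by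
      intro θ hθ
      have h1 : IsIrreducibleCharacter (fun n : Base q L => tens (fun _ : ZMod q => θ)
          ((bE (p := q) (G := L)).symm n)) :=
        irr_comp' (bE (p := q) (G := L)).symm (ofIrr (tens_irr fun _ => toIrr hθ))
      have h2 : (fun n : Base q L => tens (fun _ : ZMod q => θ)
          ((bE (p := q) (G := L)).symm n)) = f θ := by
        funext n
        obtain ⟨x, rfl⟩ := (bE (p := q) (G := L)).surjective n
        rw [MulEquiv.symm_apply_apply, hf]
        rfl
      rw [← h2]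
      exact h1
    refine Nat.card_congr (Equiv.ofBijective
      (fun θ : {θ : L → ℂ // IsIrreducibleCharacter θ ∧ HasDef p (D / q) θ ∧
        centralValue red θ e = 1} => (⟨f θ.1, hfi θ.1 θ.2.1,
          (key θ.1 θ.2.1 (f θ.1) (hfi θ.1 θ.2.1) (hf θ.1)).2 ⟨hD, θ.2.2⟩,
          (inv_iff (hfi θ.1 θ.2.1)).2 ⟨θ.1, θ.2.1, hf θ.1⟩⟩ :
          {ψ : Base q L → ℂ // IsIrreducibleCharacter ψ ∧ (HasDef p D ψ ∧
            centralValue red ψ (fun n : Base q L => wrF q e n) = 1) ∧ Inv ψ})) ⟨?_, ?_⟩)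
    · intro θ θ' h
      have h1 := congrArg Subtype.val h
      have h2 : tens (fun _ : ZMod q => θ.1) = tens (fun _ : ZMod q => θ'.1) := by
        funext x
        exact congrFun h1 (bE x)
      exact Subtype.ext (congrFun (tens_inj (fun _ => toIrr θ.2.1) (fun _ => toIrr θ'.2.1) h2) 0)
    · rintro ⟨ψ, hψ, h1, h2⟩
      obtain ⟨θ, hθ, h3⟩ := (inv_iff hψ).1 h2
      refine ⟨⟨θ, hθ, ((key θ hθ ψ hψ h3).1 h1).2⟩, Subtype.ext ?_⟩
      funext n
      obtain ⟨x, rfl⟩ := (bE (p := q) (G := L)).surjective n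
      exact (h3 x).symm
  · unfold nB
    rw [Nat.card_eq_zero]
    left
    constructor
    rintro ⟨ψ, hψ, h1, h2⟩
    obtain ⟨θ, hθ, h3⟩ := (inv_iff hψ).1 h2
    exact hD ((key θ hθ ψ hψ h3).1 h1).1

/-- **the numbers of characters of given defect of `L ≀ C_q`** -/
theorem kd_wr {e : L → F} (he : IsClassFun e)
    (h01 : ∀ θ : L → ℂ, IsIrreducibleCharacter θ → centralValue red θ e = 0 ∨
      centralValue red θ e = 1) (D : ℕ) :
    (q : ℤ) * Kd p red D (wrF q e) 1 =
      Kd p red D (fun n : Base q L => wrF q e n) 1 - Kq p q red D e + q ^ 2 * Ks p q red D e := by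
  have : NeZero q := ⟨hq.out.ne_zero⟩
  have _f2 : Fintype L := Fintype.ofFinite _
  have hz := wrF_inZ q L he
  have hcl := Pool.Agent.N20.DI.parts.cl p F red (Wr q L) (Base q L) cyc_quot (wrF q e) hz.conj
    hz.supp 1 D
  have hN0 : Nat.card (Base q L) ≠ 0 := Nat.card_pos.ne'
  set V : (Base q L → ℂ) → Prop := fun ψ =>
    centralValue red ψ (fun n : Base q L => wrF q e n) = 1 with hV
  have h1 := finsum_two (J := Base q L) (fun ψ => Dg p D (sN (Base q L) ψ) ψ ∧ V ψ) Inv
    (fun ψ => (sN (Base q L) ψ) ^ 2) ((q * Nat.card (Base q L)) ^ 2) ((Nat.card (Base q L)) ^ 2)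
    (fun ψ hψ _ h => by beta_reduce; rw [sN_eq hψ, if_pos h])
    (fun ψ hψ _ h => by beta_reduce; rw [sN_eq hψ, if_neg h])
  have h2 : nB (fun ψ : Base q L → ℂ => (Dg p D (sN (Base q L) ψ) ψ ∧ V ψ) ∧ ¬ Inv ψ) =
      nB (fun ψ : Base q L → ℂ => (HasDef p D ψ ∧ V ψ) ∧ ¬ Inv ψ) := by
    refine nB_congr fun ψ hψ => ?_
    constructor
    · rintro ⟨⟨a, b⟩, c⟩
      rw [sN_eq hψ, if_neg c] at a
      exact ⟨⟨a, b⟩, c⟩
    · rintro ⟨⟨a, b⟩, c⟩
      refine ⟨⟨?_, b⟩, c⟩
      rw [sN_eq hψ, if_neg c]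
      exact a
  have h3 : nB (fun ψ : Base q L → ℂ => (Dg p D (sN (Base q L) ψ) ψ ∧ V ψ) ∧ Inv ψ) =
      Ks p q red D e := by
    have e1 : nB (fun ψ : Base q L → ℂ => (Dg p D (sN (Base q L) ψ) ψ ∧ V ψ) ∧ Inv ψ) =
        nB (fun ψ : Base q L → ℂ => (Dg p D (q * Nat.card (Base q L)) ψ ∧ V ψ) ∧ Inv ψ) := by
      refine nB_congr fun ψ hψ => ?_
      constructor
      · rintro ⟨⟨a, b⟩, c⟩
        rw [sN_eq hψ, if_pos c] at a
        exact ⟨⟨a, b⟩, c⟩
      · rintro ⟨⟨a, b⟩, c⟩
        refine ⟨⟨?_, b⟩, c⟩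
        rw [sN_eq hψ, if_pos c]
        exact a
    rw [e1]
    have hfac : (q * Nat.card (Base q L)).factorization p =
        (if q = p then 1 else 0) + (Nat.card (Base q L)).factorization p := by
      rw [Nat.factorization_mul hq.out.ne_zero hN0, Finsupp.add_apply,
        hq.out.factorization, Finsupp.single_apply]
    unfold Ks
    split_ifs with hqp hD
    · unfold nB
      rw [Nat.card_eq_zero]
      left
      constructor
      rintro ⟨ψ, hψ, ⟨⟨n, hn, hn2⟩, -⟩, -⟩
      obtain ⟨m, hm, hm0, hmle⟩ := dg_le (p := p) hψ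
      rw [hm] at hn
      have : m = n := by exact_mod_cast hn
      rw [hfac, if_pos hqp, ← this] at hn2
      omega
    · rw [← nB_inv red he h01]
      refine nB_congr fun ψ hψ => ?_
      have h4 : Dg p D (q * Nat.card (Base q L)) ψ ↔ HasDef p (D - 1) ψ := by
        unfold Pool.Agent.N20.DI.HasDef Pool.Agent.N20.DI.Dg
        rw [hfac, if_pos hqp]
        refine exists_congr fun n => and_congr_right fun _ => ?_
        omega
      rw [h4]
    · rw [← nB_inv red he h01]
      refine nB_congr fun ψ hψ => ?_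
      have h4 : Dg p D (q * Nat.card (Base q L)) ψ ↔ HasDef p D ψ := by
        unfold Pool.Agent.N20.DI.HasDef Pool.Agent.N20.DI.Dg
        rw [hfac, if_neg hqp, zero_add]
      rw [h4]
  have h4 : Kd p red D (fun n : Base q L => wrF q e n) 1 =
      nB (fun ψ : Base q L → ℂ => (HasDef p D ψ ∧ V ψ) ∧ Inv ψ) +
        nB (fun ψ : Base q L → ℂ => (HasDef p D ψ ∧ V ψ) ∧ ¬ Inv ψ) :=
    nB_split (fun ψ : Base q L → ℂ => HasDef p D ψ ∧ V ψ) Inv
  rw [nB_inv red he h01] at h4
  rw [h2, h3] at h1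
  have h5 : Nat.card (Wr q L) * Nat.card (Base q L) * Kd p red D (wrF q e) 1 =
      (q * Nat.card (Base q L)) ^ 2 * Ks p q red D e + Nat.card (Base q L) ^ 2 *
        nB (fun ψ : Base q L → ℂ => (HasDef p D ψ ∧ V ψ) ∧ ¬ Inv ψ) := hcl.trans h1
  rw [card_wr'] at h5
  have h6 : q * Kd p red D (wrF q e) 1 = q ^ 2 * Ks p q red D e +
      nB (fun ψ : Base q L → ℂ => (HasDef p D ψ ∧ V ψ) ∧ ¬ Inv ψ) := by
    have h7 : 0 < Nat.card (Base q L) ^ 2 := pow_pos (Nat.pos_of_ne_zero hN0) 2
    refine Nat.eq_of_mul_eq_mul_left h7 ?_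
    linarith
  have h8 : (q : ℤ) * Kd p red D (wrF q e) 1 = q ^ 2 * Ks p q red D e +
      (nB (fun ψ : Base q L → ℂ => (HasDef p D ψ ∧ V ψ) ∧ ¬ Inv ψ) : ℤ) := by exact_mod_cast h6
  have h9 : (Kd p red D (fun n : Base q L => wrF q e n) 1 : ℤ) = Kq p q red D e +
      (nB (fun ψ : Base q L → ℂ => (HasDef p D ψ ∧ V ψ) ∧ ¬ Inv ψ) : ℤ) := by exact_mod_cast h4
  linear_combination h8 - h9

end Pool.Agent.U259.WD
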