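import Pool.Agent.U259.WP.Main
import Pool.Agent.N237.DI.Prd

/-!
# Alternating sums of numbers of characters of given defect: direct products
-/

set_option autoImplicit false
set_option linter.unusedSectionVars false

open scoped Classical BigOperators

noncomputable section

namespace Pool.Agent.U259.WD

open Pool.Agent.Y63.NV
open Pool.Agent.Y63.KR
open Pool.Agent.Y63.AWC (IsIrreducibleCharacter)
open Pool.Agent.N20.KB
open Pool.Agent.Q99.AS
open Pool.Agent.Helper884.IC (IsIrrChar)
open Pool.Agent.N85.WM (Wr Base wrF IsIdem BEq wrF_inZ)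
open Pool.Agent.N20.DI (Dg HasDef Kd sN fw)
open Pool.Agent.R674.KB (kblk)

variable {F : Type} [Field F] (red : integralClosure ℤ ℂ →+* F)

/-- the alternating sum of the numbers of characters of defect `D` -/
def Sd (p : ℕ) {F : Type} [Field F] (red : integralClosure ℤ ℂ →+* F) (D : ℕ) (G : Type) [Group G]
    (z : G → F) (c : F) : ℤ :=
  alternatingSum p G (fun H => (Kd p red D (fun x : H => z x) c : ℤ))

/-- the sum over all chains -/
def AD (p : ℕ) {F : Type} [Field F] (red : integralClosure ℤ ℂ →+* F) (D : ℕ) (G : Type) [Group G]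
    (z : G → F) (c : F) : ℤ :=
  ∑ᶠ σ : {σ : Set (Subgroup G) // IsPChain p σ}, (-1) ^ σ.1.ncard *
    fw p red D z c (chainStabilizer σ.1)

section alt

variable {p : ℕ} {G : Type} [Group G] [Finite G]

theorem conjInv_kd {z : G → F} (hz : IsClassFun z) (c : F) (D : ℕ) :
    ConjInv (fun H : Subgroup G => (Kd p red D (fun x : H => z x) c : ℤ)) := by
  intro g H
  change ((Kd p red D (fun x : conjSub g H => z x) c : ℕ) : ℤ) = (Kd p red D (fun x : H => z x) c : ℕ)
  rw [Pool.Agent.N78.DIBL.Kd_conj red z hz c D g H]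

theorem ad_sd {z : G → F} (hz : IsClassFun z) (c : F) (D : ℕ) :
    AD p red D G z c = (Nat.card G : ℤ) * Sd p red D G z c := by
  have h := Pool.Agent.Q90.WR.card_mul_alternatingSum' (p := p)
    (fun H : Subgroup G => (Kd p red D (fun x : H => z x) c : ℤ)) (conjInv_kd red hz c D)
  unfold Sd
  rw [h]
  unfold AD
  rw [finsum_eq_sum_of_fintype]
  rfl

end alt

section prod

variable {A B : Type} [Group A] [Group B] [Finite A] [Finite B]
variable {p : ℕ} [hp : Fact p.Prime] [IsAlgClosed F] [CharP F p]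

/-- only the values `0` and `1` occur -/
theorem sd_zero {e : A → F} (he : IsIdem e) {t : F} (h0 : t ≠ 0) (h1 : t ≠ 1) (D : ℕ) :
    Sd p red D A e t = 0 := by
  unfold Sd alternatingSum
  refine finsum_eq_zero_of_forall_eq_zero fun c => ?_
  have h2 : Kd p red D (fun x : chainStabilizer c.out.1 => e x) t = 0 := by
    unfold Kd
    rw [Nat.card_eq_zero]
    left
    constructor
    rintro ⟨χ, hχ, -, hv⟩
    have h3 := kblk p F red A c.out.1 χ c.out.2 hχ
    rcases he.val _ h3 with h4 | h4
    · exact h0 (hv.symm.trans h4)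
    · exact h1 (hv.symm.trans h4)
  change (-1) ^ c.out.1.ncard * ((Kd p red D (fun x : chainStabilizer c.out.1 => e x) t : ℕ) : ℤ) = 0
  rw [h2, Nat.cast_zero, mul_zero]

/-- **the alternating sums of a direct product** -/
theorem sd_prod {e : A → F} (he : IsIdem e) {e' : B → F} (he' : IsClassFun e') (D : ℕ) :
    Sd p red D (A × B) (fun x => e x.1 * e' x.2) 1 =
      ∑ i ∈ Finset.HasAntidiagonal.antidiagonal D, Sd p red i.1 A e 1 * Sd p red i.2 B e' 1 := by
  have hcl : IsClassFun (fun x : A × B => e x.1 * e' x.2) := fun g x => by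
    change e (g.1 * x.1 * g.1⁻¹) * e' (g.2 * x.2 * g.2⁻¹) = e x.1 * e' x.2
    rw [he.cl, he']
  let T : Finset F := (fin_values red e).toFinset.filter (· ≠ 0)
  have hT : ∀ t, t ∈ T ↔ (∃ H : Subgroup A, ∃ θ : H → ℂ, IsIrrChar θ ∧
      centralValue red θ (fun x : H => e x) = t) ∧ t ≠ 0 := by
    intro t
    rw [Finset.mem_filter, Set.Finite.mem_toFinset]
    rfl
  let I : Finset (F × (ℕ × ℕ)) := T ×ˢ Finset.HasAntidiagonal.antidiagonal D
  have key : ∀ (H : Subgroup A) (K : Subgroup B),
      ((Kd p red D (fun x : H.prod K => (fun x : A × B => e x.1 * e' x.2) x) 1 : ℕ) : ℤ) =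
      ∑ t ∈ I, ((Kd p red t.2.1 (fun x : H => e x) t.1 : ℕ) : ℤ) *
        ((Kd p red t.2.2 (fun x : K => e' x) t.1⁻¹ : ℕ) : ℤ) := by
    intro H K
    have h1 := Pool.Agent.N20.DI.kd_iso (p := p) red (Subgroup.prodEquiv H K)
      (f := fun x : H × K => e x.1 * e' x.2) (fun g x => by
        change e (g.1 * x.1 * (g.1 : A)⁻¹) * e' (g.2 * x.2 * (g.2 : B)⁻¹) = e x.1 * e' x.2
        rw [he.cl, he']) 1 D
    have h2 : (fun x : H.prod K => (fun x : A × B => e x.1 * e' x.2) x) =
        fun x : H.prod K => (fun x : H × K => e x.1 * e' x.2) (Subgroup.prodEquiv H K x) := rfl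
    rw [h2, h1]
    have _i1 : Fintype H := Fintype.ofFinite H
    have _i2 : Fintype K := Fintype.ofFinite K
    have h3 := card_prod I (fun χ : H × K → ℂ => HasDef p D χ ∧
        centralValue red χ (fun x : H × K => e x.1 * e' x.2) = 1)
      (fun t (θ : H → ℂ) => HasDef p t.2.1 θ ∧ centralValue red θ (fun x : H => e x) = t.1)
      (fun t (ψ : K → ℂ) => HasDef p t.2.2 ψ ∧ centralValue red ψ (fun x : K => e' x) = t.1⁻¹) (by
        intro θ ψ hθ hψ
        rw [cv_ten red hθ hψ (cl_res he.cl H) (cl_res he' K)]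
        have h5 : HasDef p D (ten θ ψ) ↔ _ := Dft_ten (p := p) (d := D) hθ hψ
        rw [h5]
        constructor
        · rintro ⟨⟨i, hi, h6, h7⟩, h⟩
          have h4 : centralValue red θ (fun x : H => e x) ≠ 0 := by
            intro h5
            rw [h5, zero_mul] at h
            exact zero_ne_one h
          exact ⟨(_, i), Finset.mem_product.2 ⟨(hT _).2 ⟨⟨H, θ, hθ, rfl⟩, h4⟩, hi⟩, ⟨h6, rfl⟩, h7,
            eq_inv_of_mul_eq_one_right h⟩
        · rintro ⟨t, ht, ⟨h6, h7⟩, h8, h9⟩
          obtain ⟨ht1, ht2⟩ := Finset.mem_product.1 ht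
          refine ⟨⟨t.2, ht2, h6, h8⟩, ?_⟩
          rw [h7, h9, mul_inv_cancel₀ ((hT t.1).1 ht1).2])
      (fun θ ψ i _ j _ h5 h6 h7 h8 => by
        refine Prod.ext (h5.2.symm.trans h7.2) (Prod.ext ?_ ?_)
        · exact Dft_unique h5.1 h7.1
        · exact Dft_unique h6.1 h8.1)
    have h4 : Kd p red D (fun x : H × K => e x.1 * e' x.2) 1 = Nat.card {χ : H × K → ℂ //
        IsIrrChar χ ∧ (HasDef p D χ ∧
          centralValue red χ (fun x : H × K => e x.1 * e' x.2) = 1)} := rfl
    rw [h4, h3]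
    push_cast
    rfl
  have h := altSum_prod (p := p) (O₁ := (⊥ : Subgroup A)) (O₂ := (⊥ : Subgroup B))
    IsPGroup.of_bot IsPGroup.of_bot inferInstance inferInstance I
    (fun H : Subgroup (A × B) =>
      (Kd p red D (fun x : H => (fun x : A × B => e x.1 * e' x.2) x) 1 : ℤ))
    (fun t (H : Subgroup A) => (Kd p red t.2.1 (fun x : H => e x) t.1 : ℤ))
    (fun t (H : Subgroup B) => (Kd p red t.2.2 (fun x : H => e' x) t.1⁻¹ : ℤ))
    (conjInv_kd red hcl 1 D)
    (fun t => conjInv_kd red he.cl t.1 t.2.1) (fun t => conjInv_kd red he' _ t.2.2) key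
  rw [Subgroup.bot_prod_bot] at h
  have e1 : ∀ (G : Type) [Group G] [Finite G] (z : G → F) (hz : IsClassFun z) (c : F) (D : ℕ),
      altSum p (⊥ : Subgroup G) (fun H : Subgroup G => (Kd p red D (fun x : H => z x) c : ℤ)) =
        Sd p red D G z c := fun G _ _ z hz c D => (alt_eq' (conjInv_kd red hz c D)).symm
  rw [e1 (A × B) _ hcl] at h
  rw [h, Finset.sum_product]
  by_cases h1 : (1 : F) ∈ T
  · rw [Finset.sum_eq_single (1 : F)]
    · refine Finset.sum_congr rfl fun i _ => ?_
      rw [e1 A e he.cl, inv_one, e1 B e' he']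
    · intro t ht ht1
      refine Finset.sum_eq_zero fun i _ => ?_
      rw [e1 A e he.cl, sd_zero red he ((hT t).1 ht).2 ht1, zero_mul]
    · intro h2
      exact absurd h1 h2
  · rw [Finset.sum_eq_zero]
    · symm
      refine Finset.sum_eq_zero fun i _ => ?_
      have h2 : Sd p red i.1 A e 1 = 0 := by
        unfold Sd alternatingSum
        refine finsum_eq_zero_of_forall_eq_zero fun c => ?_
        have h2 : Kd p red i.1 (fun x : chainStabilizer c.out.1 => e x) 1 = 0 := by
          unfold Kd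
          rw [Nat.card_eq_zero]
          left
          constructor
          rintro ⟨χ, hχ, -, hv⟩
          exact h1 ((hT 1).2 ⟨⟨_, χ, hχ, hv⟩, one_ne_zero⟩)
        change (-1) ^ c.out.1.ncard *
          ((Kd p red i.1 (fun x : chainStabilizer c.out.1 => e x) 1 : ℕ) : ℤ) = 0
        rw [h2, Nat.cast_zero, mul_zero]
      rw [h2, zero_mul]
    · intro t ht
      have ht1 : t ≠ 1 := by
        rintro rfl
        exact h1 ht
      refine Finset.sum_eq_zero fun i _ => ?_
      rw [e1 A e he.cl, sd_zero red he ((hT t).1 ht).2 ht1, zero_mul]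

/-- the generating function -/
def gf (p : ℕ) {F : Type} [Field F] (red : integralClosure ℤ ℂ →+* F) (G : Type) [Group G]
    (z : G → F) : PowerSeries ℤ := PowerSeries.mk fun d => Sd p red d G z 1

theorem gf_prod {e : A → F} (he : IsIdem e) {e' : B → F} (he' : IsClassFun e') :
    gf p red (A × B) (fun x => e x.1 * e' x.2) = gf p red A e * gf p red B e' := by
  ext D
  unfold gf
  rw [PowerSeries.coeff_mul, PowerSeries.coeff_mk, sd_prod red he he']
  refine Finset.sum_congr rfl fun i _ => ?_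
  rw [PowerSeries.coeff_mk, PowerSeries.coeff_mk]

/-- sums over chains and isomorphisms -/
theorem ch_congr {p : ℕ} {Δ Γ : Type} [Group Δ] [Group Γ] [Finite Δ] [Finite Γ] (e : Δ ≃* Γ)
    (f : Subgroup Δ → ℤ) (f' : Subgroup Γ → ℤ) (hf : ∀ S, f S = f' (S.map e.toMonoidHom)) :
    (∑ᶠ σ : {σ : Set (Subgroup Δ) // IsPChain p σ}, (-1) ^ σ.1.ncard * f (chainStabilizer σ.1)) =
      ∑ᶠ σ : {σ : Set (Subgroup Γ) // IsPChain p σ}, (-1) ^ σ.1.ncard *
        f' (chainStabilizer σ.1) := by
  have hinj : Function.Injective (fun P : Subgroup Δ => P.map e.toMonoidHom) :=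
    Subgroup.map_injective e.injective
  have hle : ∀ P Q : Subgroup Δ, P.map e.toMonoidHom ≤ Q.map e.toMonoidHom ↔ P ≤ Q := fun P Q =>
    Subgroup.map_le_map_iff_of_injective e.injective
  have hback : ∀ P : Subgroup Γ, (P.comap e.toMonoidHom).map e.toMonoidHom = P := fun P =>
    Subgroup.map_comap_eq_self_of_surjective e.surjective P
  refine finsum_eq_of_bijective (fun σ : {σ : Set (Subgroup Δ) // IsPChain p σ} =>
    (⟨(fun P : Subgroup Δ => P.map e.toMonoidHom) '' σ.1, ⟨?_, ?_, ?_⟩⟩ :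
      {σ : Set (Subgroup Γ) // IsPChain p σ})) ⟨?_, ?_⟩ ?_
  · rintro _ ⟨P, hP, rfl⟩ _ ⟨Q, hQ, rfl⟩ _
    rcases σ.2.chain.total hP hQ with h | h
    · exact Or.inl ((hle P Q).2 h)
    · exact Or.inr ((hle Q P).2 h)
  · rintro _ ⟨P, hP, rfl⟩
    exact (σ.2.isPGroup P hP).map _
  · rintro _ ⟨P, hP, rfl⟩ h
    exact σ.2.ne_bot P hP ((Subgroup.map_eq_bot_iff_of_injective P e.injective).1 h)
  · intro σ τ h
    have h1 := congrArg Subtype.val h
    exact Subtype.ext (hinj.image_injective h1)
  · rintro ⟨τ, h1, h2, h3⟩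
    refine ⟨⟨(fun P : Subgroup Γ => P.comap e.toMonoidHom) '' τ, ⟨?_, ?_, ?_⟩⟩, ?_⟩
    · rintro _ ⟨P, hP, rfl⟩ _ ⟨Q, hQ, rfl⟩ _
      rcases h1.total hP hQ with h | h
      · exact Or.inl (Subgroup.comap_mono h)
      · exact Or.inr (Subgroup.comap_mono h)
    · rintro _ ⟨P, hP, rfl⟩
      exact (h2 P hP).comap_of_injective _ e.injective
    · rintro _ ⟨P, hP, rfl⟩ h
      apply h3 P hP
      rw [← hback P]
      change (P.comap e.toMonoidHom).map e.toMonoidHom = ⊥
      rw [show P.comap e.toMonoidHom = ⊥ from h, Subgroup.map_bot]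
    · apply Subtype.ext
      change (fun P : Subgroup Δ => P.map e.toMonoidHom) ''
        ((fun P : Subgroup Γ => P.comap e.toMonoidHom) '' τ) = τ
      rw [← Set.image_comp]
      ext P
      constructor
      · rintro ⟨Q, hQ, rfl⟩
        change (Q.comap e.toMonoidHom).map e.toMonoidHom ∈ τ
        rw [hback]
        exact hQ
      · intro hP
        exact ⟨P, hP, hback P⟩
  · intro σ
    have hst : ∀ x : Δ, x ∈ chainStabilizer σ.1 ↔
        e x ∈ chainStabilizer ((fun P : Subgroup Δ => P.map e.toMonoidHom) '' σ.1) := by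
      intro x
      rw [mem_chainStabilizer, mem_chainStabilizer]
      constructor
      · rintro h _ ⟨P, hP, rfl⟩
        change conjSub (e x) (P.map e.toMonoidHom) = P.map e.toMonoidHom
        rw [Pool.Agent.R674.Ce.conjSub_map_equiv, h P hP]
      · intro h P hP
        have h4 := h _ ⟨P, hP, rfl⟩
        change conjSub (e x) (P.map e.toMonoidHom) = P.map e.toMonoidHom at h4
        rw [Pool.Agent.R674.Ce.conjSub_map_equiv] at h4
        exact hinj h4
    have hmap : (chainStabilizer σ.1).map e.toMonoidHom =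
        chainStabilizer ((fun P : Subgroup Δ => P.map e.toMonoidHom) '' σ.1) := by
      ext y
      rw [Subgroup.mem_map]
      constructor
      · rintro ⟨x, hx, rfl⟩
        exact (hst x).1 hx
      · intro hy
        refine ⟨e.symm y, (hst _).2 ?_, e.apply_symm_apply y⟩
        rw [e.apply_symm_apply]
        exact hy
    change _ = (-1) ^ ((fun P : Subgroup Δ => P.map e.toMonoidHom) '' σ.1).ncard *
      f' (chainStabilizer ((fun P : Subgroup Δ => P.map e.toMonoidHom) '' σ.1))
    rw [Set.ncard_image_of_injective _ hinj, ← hmap, hf]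

theorem fw_map {p : ℕ} {Δ Γ : Type} [Group Δ] [Group Γ] [Finite Δ] [Finite Γ] (e : Δ ≃* Γ)
    {z : Γ → F} (hz : IsClassFun z) (c : F) (D : ℕ) (S : Subgroup Δ) :
    fw p red D (fun x => z (e x)) c S = fw p red D z c (S.map e.toMonoidHom) := by
  unfold Pool.Agent.N20.DI.fw
  let e' : S ≃* (S.map e.toMonoidHom : Subgroup Γ) :=
    S.equivMapOfInjective e.toMonoidHom e.injective
  have h := Pool.Agent.N20.DI.kd_iso (p := p) red e'
    (f := fun x : (S.map e.toMonoidHom : Subgroup Γ) => z x) (fun a x => hz a x) c D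
  rw [← h, Nat.card_congr e'.toEquiv]
  rfl

theorem ad_congr {p : ℕ} {Δ Γ : Type} [Group Δ] [Group Γ] [Finite Δ] [Finite Γ] (e : Δ ≃* Γ)
    {z : Γ → F} (hz : IsClassFun z) (c : F) (D : ℕ) :
    AD p red D Δ (fun x => z (e x)) c = AD p red D Γ z c :=
  ch_congr e _ _ fun S => fw_map red e hz c D S

theorem sd_iso {G H : Type} [Group G] [Group H] [Finite G] [Finite H] (φ : G ≃* H) {z : H → F}
    (hz : IsClassFun z) (c : F) (D : ℕ) :
    Sd p red D G (fun x => z (φ x)) c = Sd p red D H z c := by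
  have hz' : IsClassFun (fun x : G => z (φ x)) := fun g x => by
    simp only [map_mul, map_inv]
    exact hz _ _
  have h := ad_congr (p := p) red φ hz c D
  rw [ad_sd red hz', ad_sd red hz, Nat.card_congr φ.toEquiv] at h
  exact mul_left_cancel₀ (by exact_mod_cast Nat.card_pos.ne') h

theorem gf_iso {G H : Type} [Group G] [Group H] [Finite G] [Finite H] (φ : G ≃* H) {z : H → F}
    (hz : IsClassFun z) : gf p red G (fun x => z (φ x)) = gf p red H z := by
  ext D
  unfold gf
  rw [PowerSeries.coeff_mk, PowerSeries.coeff_mk, sd_iso red φ hz]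

theorem gf_fin {e : A → F} (he : IsIdem e) (n : ℕ) :
    gf p red (Fin (n + 1) → A) (fun x => ∏ i, e (x i)) = gf p red A e ^ (n + 1) := by
  induction n with
  | zero =>
    rw [zero_add, pow_one]
    have h := gf_iso (p := p) red (MulEquiv.piUnique (fun _ : Fin 1 => A)) he.cl
    rw [← h]
    congr 1
    funext x
    rw [Fin.prod_univ_one]
    rfl
  | succ n ih =>
    rw [pow_succ', ← ih, ← gf_prod red he (cl_tens he.cl)]
    let φ : (Fin (n + 2) → A) ≃* A × (Fin (n + 1) → A) :=
      { toFun := fun x => (x 0, fun i => x i.succ)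
        invFun := fun y => Fin.cons y.1 y.2
        left_inv := fun x => by
          funext i
          refine Fin.cases ?_ (fun j => ?_) i
          · rfl
          · rfl
        right_inv := fun y => rfl
        map_mul' := fun x y => rfl }
    have h := gf_iso (p := p) red φ (z := fun x : A × (Fin (n + 1) → A) =>
      e x.1 * ∏ i, e (x.2 i)) (fun g x => by
        change e (g.1 * x.1 * g.1⁻¹) * (∏ i, e (g.2 i * x.2 i * (g.2 i)⁻¹)) = _
        rw [he.cl, Finset.prod_congr rfl fun i _ => he.cl (g.2 i) (x.2 i)])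
    rw [← h]
    congr 1
    funext x
    rw [Fin.prod_univ_succ]
    rfl

theorem gf_zmod {e : A → F} (he : IsIdem e) (q : ℕ) [NeZero q] :
    gf p red (ZMod q → A) (fun x => ∏ i, e (x i)) = gf p red A e ^ q := by
  obtain ⟨n, hn⟩ : ∃ n, q = n + 1 := ⟨q - 1, by have := NeZero.pos q; omega⟩
  have h := gf_fin (p := p) red he n
  rw [← hn] at h
  rw [← h]
  have h2 := gf_iso (p := p) red
    (MulEquiv.arrowCongr (ZMod.finEquiv q).symm.toEquiv (MulEquiv.refl A))
    (cl_tens (ι := Fin q) he.cl)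
  rw [← h2]
  congr 1
  funext x
  exact (Fintype.prod_equiv (ZMod.finEquiv q).toEquiv _ _ fun i => rfl).symm

end prod

end Pool.Agent.U259.WD
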