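import Pool.Agent.U259.WD.Gal

/-!
# The generating functions
-/

set_option autoImplicit false
set_option linter.unusedSectionVars false

open scoped Classical BigOperators

noncomputable section

namespace Pool.Agent.U259.WD

open Pool.Agent.Y63.NV
open Pool.Agent.Y63.KR
open Pool.Agent.Y63.AWC (IsIrreducibleCharacter)
open Pool.Agent.N20.KB
open Pool.Agent.N20.DI (Dg HasDef Kd fw pf pf_class parts fw_up)
open Pool.Agent.N85.WM (Wr Base shiftHom mem_base wrF wrF_inZ IsIdem card_quot)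
open Pool.Agent.R674.Ce (chs wt Sp chs_eq toLoc toLoc_bij)
open Pool.Agent.U259.WP (bE X R X_right cpl_R exists_R card_fib ψ wrF_ψ)
open SemidirectProduct (inl inr)

/-- no characters of defect zero if there is a nontrivial normal `p`-subgroup -/
theorem kd_zero {p : ℕ} [hp : Fact p.Prime] {F : Type} [Field F]
    (red : integralClosure ℤ ℂ →+* F) {J : Type} [Group J] [Finite J] {P : Subgroup J}
    (hn : P.Normal) (hP : IsPGroup p P) (h1 : P ≠ ⊥) (z : J → F) (c : F) : Kd p red 0 z c = 0 := by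
  unfold Kd
  rw [Nat.card_eq_zero]
  left
  constructor
  rintro ⟨χ, hχ, hd, hv⟩
  have hw : IsWt p (⊥ : Subgroup J) χ := Pool.Agent.N237.DI.wt_iff.2 ⟨hχ, hd⟩
  exact wtn p J ⊥ P χ inferInstance hn hP (bot_lt_iff_ne_bot.2 h1) hw

section eq

variable {p : ℕ} [hp : Fact p.Prime] {F : Type} [Field F] [IsAlgClosed F]
  [CharP F p] (red : integralClosure ℤ ℂ →+* F) {G : Type} [Group G] [Finite G]

theorem cpl_zero {Γ : Type} [Group Γ] [Finite Γ] {S : Subgroup Γ} (hS : IsPGroup p S) (h1 : S ≠ ⊥)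
    (z : Γ → F) (c : F) :
    chs {P : Subgroup Γ | IsPGroup p P ∧ S < P ∧
            P ≤ ⊤ ⊓ Subgroup.normalizer (S : Set Γ)}
          (wt (⊤ ⊓ Subgroup.normalizer (S : Set Γ)) (fw p red 0 z c)) = 0 := by
  unfold chs
  refine finsum_eq_zero_of_forall_eq_zero fun σ => ?_
  unfold wt Pool.Agent.N20.DI.fw
  set M := ⊤ ⊓ Subgroup.normalizer (S : Set Γ) ⊓ chainStabilizer σ.1 with hM
  have hSM : S ≤ M := by
    refine le_inf (le_inf le_top Subgroup.le_normalizer) ?_
    intro x hx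
    rw [mem_chainStabilizer]
    intro Q hQ
    rw [conjSub_eq_iff]
    exact Subgroup.le_normalizer ((σ.2.1 hQ).2.1.le hx)
  have hn : (S.subgroupOf M).Normal := by
    rw [Subgroup.normal_subgroupOf_iff_le_normalizer hSM]
    exact inf_le_left.trans inf_le_right
  have h2 : Kd p red 0 (fun x : M => z x) c = 0 := by
    refine kd_zero (p := p) red hn hS.comap_subtype ?_ _ _
    intro h3
    apply h1
    rw [Subgroup.subgroupOf_eq_bot] at h3
    exact eq_bot_iff.2 fun x hx => h3.le_bot ⟨hx, hSM hx⟩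
  rw [h2, Nat.cast_zero, mul_zero, mul_zero]

/-- **the formula for `q = p`, defect zero** -/
theorem form_eq0 {e : G → F} (he : IsIdem e) :
    (p : ℤ) * Sd p red 0 (Wr p G) (wrF p e) 1 = Sd p red 0 G e 1 ^ p - Sd p red 0 G e 1 := by
  have : NeZero p := ⟨hp.out.ne_zero⟩
  have hz := wrF_inZ p G he.cl
  have h1 := ad_sd (p := p) red hz.conj 1 0
  have hdec := parts.dec p (Wr p G) (Base p G) ⊤ le_top (by
    intro a _ b _
    rw [mem_base]
    change a.right * b.right * a.right⁻¹ * b.right⁻¹ = 1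
    rw [mul_comm a.right, mul_inv_cancel_right, mul_inv_cancel])
    (fw p red 0 (wrF p e) 1)
  have hc : (∑ᶠ S : Subgroup (Wr p G),
      if IsPGroup p S ∧ S ≠ ⊥ ∧ S ≤ (⊤ : Subgroup (Wr p G)) ∧ Base p G ⊓ S = ⊥ then
        chs {P : Subgroup (Wr p G) | IsPGroup p P ∧ S < P ∧
            P ≤ ⊤ ⊓ Subgroup.normalizer (S : Set (Wr p G))}
          (wt (⊤ ⊓ Subgroup.normalizer (S : Set (Wr p G))) (fw p red 0 (wrF p e) 1))
        else 0) = 0 := by
    refine finsum_eq_zero_of_forall_eq_zero fun S => ?_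
    split_ifs with h
    · exact cpl_zero red h.1 h.2.1 _ _
    · rfl
  rw [ad_chs red, hdec, hc, tn red he 0, card_wr'] at h1
  have h2 : Nat.card (Base p G) = Nat.card G ^ p := by
    rw [← Nat.card_congr (bE (p := p) (G := G)).toEquiv, Nat.card_fun, Nat.card_zmod]
  rw [h2] at h1
  have h3 : Ss p p red 0 G e = 0 := by
    unfold Ss
    rw [if_pos rfl, if_pos rfl]
  have h4 : Sq p p red 0 G e = Sd p red 0 G e 1 := by
    unfold Sq
    rw [if_pos (dvd_zero _), Nat.zero_div]
  have h5 : PowerSeries.coeff 0 (gf p red G e ^ p) = Sd p red 0 G e 1 ^ p := by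
    rw [PowerSeries.coeff_zero_eq_constantCoeff_apply, map_pow,
      ← PowerSeries.coeff_zero_eq_constantCoeff_apply]
    unfold gf
    rw [PowerSeries.coeff_mk]
  rw [h3, h4, h5] at h1
  push_cast at h1
  have h6 : (Nat.card G : ℤ) ≠ 0 := by exact_mod_cast Nat.card_pos.ne'
  have h7 : (Nat.card G : ℤ) ^ p ≠ 0 := pow_ne_zero _ h6
  apply mul_left_cancel₀ h7
  linear_combination -h1

end eq

end Pool.Agent.U259.WD
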