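import Pool.Agent.U259.WD.Dia

/-!
# The sum over the chains of `p`-subgroups of the base group
-/

set_option autoImplicit false
set_option linter.unusedSectionVars false

open scoped Classical BigOperators

noncomputable section

namespace Pool.Agent.U259.WD

open Pool.Agent.Y63.NV
open Pool.Agent.Y63.KR
open Pool.Agent.Y63.AWC (IsIrreducibleCharacter)
open Pool.Agent.N20.KB
open Pool.Agent.N20.DI (Dg HasDef Kd fw)
open Pool.Agent.N85.WM (Wr Base shiftHom mem_base wrF wrF_inZ IsIdem)
open Pool.Agent.R674.Ce (chs wt Sp chs_eq chs_sub' conjSub_inf conjSub_normal)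
open Pool.Agent.R674.KB (kblk)
open Pool.Agent.U259.WP (bE)
open SemidirectProduct (inl inr)

section gen

variable {p : ℕ} {F : Type} [Field F] (red : integralClosure ℤ ℂ →+* F) {Γ : Type} [Group Γ]
  [Finite Γ]

theorem fw_sub (z : Γ → F) (c : F) (D : ℕ) (K : Subgroup Γ)
    (hz : IsClassFun (fun x : K => z x)) (J : Subgroup K) :
    fw p red D z c (J.map K.subtype) = fw p red D (fun x : K => z x) c J := by
  unfold Pool.Agent.N20.DI.fw
  have hcl : IsClassFun (fun x : (J.map K.subtype : Subgroup Γ) => z x) := by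
    rintro ⟨_, g, hg, rfl⟩ ⟨_, x, hx, rfl⟩
    exact hz g x
  have h := Pool.Agent.N20.DI.kd_iso (p := p) red
    (J.equivMapOfInjective K.subtype K.subtype_injective)
    (f := fun x : (J.map K.subtype : Subgroup Γ) => z x) hcl c D
  rw [← h, Nat.card_congr (J.equivMapOfInjective K.subtype K.subtype_injective).toEquiv]
  rfl

theorem chs_fw (z : Γ → F) (c : F) (D : ℕ) (K : Subgroup Γ)
    (hz : IsClassFun (fun x : K => z x)) :
    chs (Sp p K) (wt K (fw p red D z c)) = AD p red D K (fun x : K => z x) c := by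
  rw [Pool.Agent.R674.Ce.chs_subgroup]
  refine finsum_congr fun σ => ?_
  rw [fw_sub red z c D K hz]

end gen

section tn

variable {p q : ℕ} [hp : Fact p.Prime] [hq : Fact q.Prime] {F : Type} [Field F] [IsAlgClosed F]
  [CharP F p] (red : integralClosure ℤ ℂ →+* F) {G : Type} [Group G] [Finite G]

/-- the function `u` -/
def uu (p q : ℕ) [NeZero q] {F : Type} [Field F] (red : integralClosure ℤ ℂ →+* F) {G : Type}
    [Group G] (e : G → F) (D : ℕ) (M : Subgroup (Wr q G)) : ℤ :=
  (q : ℤ) * Kd p red D (fun x : M => wrF q e x) 1 -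
    Kd p red D (fun x : ↥(Base q G ⊓ M) => wrF q e x) 1

theorem uu_conj {e : G → F} (he : IsClassFun e) (D : ℕ) (y : Wr q G) (M : Subgroup (Wr q G)) :
    uu p q red e D (conjSub y M) = uu p q red e D M := by
  have hz := (wrF_inZ q G he).conj
  unfold uu
  have h1 := Pool.Agent.N78.DIBL.Kd_conj (p := p) red (wrF q e) (fun g x => hz g x) 1 D y M
  have h2 := Pool.Agent.N78.DIBL.Kd_conj (p := p) red (wrF q e) (fun g x => hz g x) 1 D y
    (Base q G ⊓ M)
  rw [h1]
  rw [conjSub_inf, conjSub_normal] at h2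
  rw [h2]

/-- the number of elements of `M` in the coset of the generator -/
theorem card_coset (M : Subgroup (Wr q G)) (h : ¬ M ≤ Base q G) :
    Nat.card {g : Wr q G // g ∈ M ∧ g.right = Multiplicative.ofAdd 1} =
      Nat.card ↥(Base q G ⊓ M) ∧ Nat.card M = q * Nat.card ↥(Base q G ⊓ M) := by
  have : NeZero q := ⟨hq.out.ne_zero⟩
  obtain ⟨m, hm, hmN⟩ := SetLike.not_le_iff_exists.1 h
  -- the image of `M` is everything
  let φ : M →* Multiplicative (ZMod q) := SemidirectProduct.rightHom.comp M.subtype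
  have hφ : φ.range = ⊤ := by
    have h1 : Nat.card φ.range ∣ q := by
      have h2 := Subgroup.card_subgroup_dvd_card φ.range
      rw [Nat.card_congr Multiplicative.toAdd, Nat.card_zmod] at h2
      exact h2
    rcases (Nat.dvd_prime hq.out).1 h1 with h2 | h2
    · exfalso
      apply hmN
      rw [mem_base]
      have h3 := Subgroup.card_eq_one.1 h2
      have h4 : φ ⟨m, hm⟩ ∈ φ.range := ⟨_, rfl⟩
      rw [h3, Subgroup.mem_bot] at h4
      exact h4
    · apply Subgroup.eq_top_of_card_eq
      rw [h2, Nat.card_congr Multiplicative.toAdd, Nat.card_zmod]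
  have hsurj : Function.Surjective φ := MonoidHom.range_eq_top.1 hφ
  obtain ⟨g₀, hg₀⟩ := hsurj (Multiplicative.ofAdd 1)
  have hg₀' : (g₀ : Wr q G).right = Multiplicative.ofAdd 1 := hg₀
  have hker : Nat.card φ.ker = Nat.card ↥(Base q G ⊓ M) := by
    refine Nat.card_congr
      { toFun := fun x => ⟨x.1.1, (mem_base q G).2 x.2, x.1.2⟩
        invFun := fun x => ⟨⟨x.1, x.2.2⟩, (mem_base q G).1 x.2.1⟩
        left_inv := fun _ => rfl
        right_inv := fun _ => rfl }
  constructor
  · rw [← hker]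
    refine Nat.card_congr
      { toFun := fun x => ⟨⟨x.1, x.2.1⟩ * g₀⁻¹, ?_⟩
        invFun := fun x => ⟨x.1.1 * g₀, M.mul_mem x.1.2 g₀.2, ?_⟩
        left_inv := fun x => Subtype.ext ?_
        right_inv := fun x => Subtype.ext (Subtype.ext ?_) }
    · rw [MonoidHom.mem_ker, map_mul, map_inv, hg₀]
      change x.1.right * _ = 1
      rw [x.2.2, mul_inv_cancel]
    · rw [SemidirectProduct.mul_right, hg₀']
      have h1 : (x.1.1 : Wr q G).right = 1 := x.2
      rw [h1, one_mul]
    · change x.1 * (g₀ : Wr q G)⁻¹ * g₀ = x.1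
      rw [inv_mul_cancel_right]
    · change (x.1.1 * g₀) * (g₀ : Wr q G)⁻¹ = x.1.1
      rw [mul_inv_cancel_right]
  · have h1 := Subgroup.card_mul_index φ.ker
    have h2 : φ.ker.index = q := by
      rw [Subgroup.index_ker, hφ, Subgroup.card_top, Nat.card_congr Multiplicative.toAdd,
        Nat.card_zmod]
    rw [hker, h2] at h1
    rw [← h1, mul_comm]

/-- splitting of the weight -/
theorem fw_split (e : G → F) (D : ℕ) (M : Subgroup (Wr q G)) :
    fw p red D (wrF q e) 1 M = fw p red D (wrF q e) 1 (Base q G ⊓ M) +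
      HU (uu p q red e D) M := by
  unfold HU
  by_cases h : M ≤ Base q G
  · have h1 : Nat.card {g : Wr q G // g ∈ M ∧ g.right = Multiplicative.ofAdd 1} = 0 := by
      rw [Nat.card_eq_zero]
      left
      constructor
      rintro ⟨g, hg, h2⟩
      have h3 := (mem_base q G).1 (h hg)
      rw [h3] at h2
      have h4 : (0 : ZMod q) = 1 := congrArg Multiplicative.toAdd h2
      exact zero_ne_one h4
    rw [h1, Nat.cast_zero, zero_mul, add_zero, inf_eq_right.2 h]
  · obtain ⟨h1, h2⟩ := card_coset M h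
    rw [h1]
    unfold Pool.Agent.N20.DI.fw uu
    rw [h2]
    push_cast
    ring

/-- the isomorphism of `L ≀ C_q` with the subgroup -/
def wE (L : Subgroup G) : Wr q L ≃* WW q L where
  toFun x := ⟨⟨fun i => x.left i, x.right⟩, fun i => (x.left i).2⟩
  invFun y := ⟨fun i => ⟨y.1.left i, y.2 i⟩, y.1.right⟩
  left_inv _ := rfl
  right_inv _ := rfl
  map_mul' x y := by
    apply Subtype.ext
    apply SemidirectProduct.ext
    · funext i
      change ((x * y).left i : G) = (⟨fun i => (x.left i : G), x.right⟩ *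
        ⟨fun i => (y.left i : G), y.right⟩ : Wr q G).left i
      rw [mul_left_apply, mul_left_apply]
      rfl
    · rfl

/-- the same for the base group -/
def wB (L : Subgroup G) : Base q L ≃* ↥(Base q G ⊓ WW q L) where
  toFun x := ⟨((wE (q := q) L (x : Wr q L) : WW q L) : Wr q G),
    (mem_base q G).2 ((mem_base q L).1 x.2), (wE (q := q) L (x : Wr q L)).2⟩
  invFun y := ⟨(wE (q := q) L).symm ⟨(y : Wr q G), y.2.2⟩,
    (mem_base q L).2 ((mem_base q G).1 y.2.1)⟩
  left_inv _ := rfl
  right_inv _ := rfl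
  map_mul' x y := by
    apply Subtype.ext
    exact congrArg (fun t : WW q L => (t : Wr q G)) (map_mul (wE (q := q) L) (x : Wr q L) y)

theorem wrF_wE (e : G → F) (L : Subgroup G) (x : Wr q L) :
    wrF q e (wE L x : Wr q G) = wrF q (fun y : L => e y) x := rfl

theorem uu_WW {e : G → F} (he : IsIdem e) (D : ℕ) {τ : Set (Subgroup G)} (hτ : IsPChain p τ) :
    uu p q red e D (WW q (chainStabilizer τ)) =
      (q : ℤ) ^ 2 * Ks p q red D (fun y : chainStabilizer τ => e y) -
        Kq p q red D (fun y : chainStabilizer τ => e y) := by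
  set L := chainStabilizer τ with hL
  have hz := (wrF_inZ q G he.cl).conj
  have hcl : IsClassFun (fun y : L => e y) := fun g x => he.cl g x
  have h01 : ∀ θ : L → ℂ, IsIrreducibleCharacter θ →
      centralValue red θ (fun y : L => e y) = 0 ∨ centralValue red θ (fun y : L => e y) = 1 :=
    fun θ hθ => he.val _ (kblk p F red G τ θ hτ hθ)
  have h1 := kd_wr (p := p) (q := q) red hcl h01 D
  have h2 := Pool.Agent.N20.DI.kd_iso (p := p) red (wE (q := q) L)
    (f := fun x : WW q L => wrF q e x) (fun g x => hz g x) 1 D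
  have h3 := Pool.Agent.N20.DI.kd_iso (p := p) red (wB (q := q) L)
    (f := fun x : ↥(Base q G ⊓ WW q L) => wrF q e x) (fun g x => hz g x) 1 D
  unfold uu
  rw [← h2, ← h3]
  have e2 : (fun x : Wr q L => wrF q e ((wE L x : WW q L) : Wr q G)) =
      wrF q (fun y : L => e y) := rfl
  have e3 : (fun x : Base q L => wrF q e ((wB L x : ↥(Base q G ⊓ WW q L)) : Wr q G)) =
      fun x : Base q L => wrF q (fun y : L => e y) x := rfl
  rw [e2, e3]
  linear_combination h1

/-- `S_{D/q}` -/
def Sq (p q : ℕ) {F : Type} [Field F] (red : integralClosure ℤ ℂ →+* F) (D : ℕ) (G : Type)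
    [Group G] (e : G → F) : ℤ := if q ∣ D then Sd p red (D / q) G e 1 else 0

/-- the same, shifted by `1` if `q = p` -/
def Ss (p q : ℕ) {F : Type} [Field F] (red : integralClosure ℤ ℂ →+* F) (D : ℕ) (G : Type)
    [Group G] (e : G → F) : ℤ :=
  if q = p then (if D = 0 then 0 else Sq p q red (D - 1) G e) else Sq p q red D G e

theorem sum_Kq {e : G → F} (he : IsClassFun e) (D : ℕ) :
    (∑ᶠ τ : {τ : Set (Subgroup G) // IsPChain p τ}, (-1) ^ τ.1.ncard *
      ((Nat.card (chainStabilizer τ.1) : ℤ) *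
        (Kq p q red D (fun y : chainStabilizer τ.1 => e y) : ℤ))) =
      (Nat.card G : ℤ) * Sq p q red D G e := by
  unfold Kq Sq
  split_ifs with h
  · rw [← ad_sd red he]
    rfl
  · rw [mul_zero]
    refine finsum_eq_zero_of_forall_eq_zero fun τ => ?_
    rw [Nat.cast_zero, mul_zero, mul_zero]

theorem sum_Ks {e : G → F} (he : IsClassFun e) (D : ℕ) :
    (∑ᶠ τ : {τ : Set (Subgroup G) // IsPChain p τ}, (-1) ^ τ.1.ncard *
      ((Nat.card (chainStabilizer τ.1) : ℤ) *
        (Ks p q red D (fun y : chainStabilizer τ.1 => e y) : ℤ))) =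
      (Nat.card G : ℤ) * Ss p q red D G e := by
  unfold Ks Ss
  split_ifs with h1 h2
  · rw [mul_zero]
    refine finsum_eq_zero_of_forall_eq_zero fun τ => ?_
    rw [Nat.cast_zero, mul_zero, mul_zero]
  · exact sum_Kq red he (D - 1)
  · exact sum_Kq red he D

/-- **the sum over the chains of `p`-subgroups of the base group** -/
theorem tn {e : G → F} (he : IsIdem e) (D : ℕ) :
    chs (Sp p (Base q G)) (wt ⊤ (fw p red D (wrF q e) 1)) = (Nat.card G : ℤ) ^ q *
      (PowerSeries.coeff D (gf p red G e ^ q) + (q : ℤ) ^ 2 * Ss p q red D G e -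
        Sq p q red D G e) := by
  have : NeZero q := ⟨hq.out.ne_zero⟩
  have _f3 : Fintype (Set (Subgroup (Wr q G))) := Fintype.ofFinite _
  have _f4 : Fintype {τ : Set (Subgroup G) // IsPChain p τ} := Fintype.ofFinite _
  have hz := wrF_inZ q G he.cl
  -- the first part
  have h1 : chs (Sp p (Base q G)) (wt ⊤ fun M => fw p red D (wrF q e) 1 (Base q G ⊓ M)) =
      (Nat.card G : ℤ) ^ q * PowerSeries.coeff D (gf p red G e ^ q) := by
    have e1 : (wt ⊤ fun M => fw p red D (wrF q e) 1 (Base q G ⊓ M)) =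
        wt (Base q G) (fw p red D (wrF q e) 1) := by
      funext σ
      unfold wt
      rw [top_inf_eq]
    rw [e1, chs_fw red (wrF q e) 1 D (Base q G) (fun g x => hz.conj g x)]
    have h3 := ad_congr (p := p) red (bE (p := q) (G := G)) (z := fun x : Base q G => wrF q e x)
      (fun g x => hz.conj g x) 1 D
    rw [← h3]
    have h4 : (fun x : ZMod q → G => wrF q e ((bE x : Base q G) : Wr q G)) =
        fun x => ∏ i, e (x i) := by
      funext x
      change wrF q e (inl x : Wr q G) = _
      unfold wrF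
      rw [if_pos (by rfl)]
      rfl
    rw [h4, ad_sd red (cl_tens he.cl), ← gf_zmod red he q, Nat.card_fun, Nat.card_zmod]
    unfold gf
    rw [PowerSeries.coeff_mk]
    push_cast
    rfl
  have h2 := sum_HU (p := p) (uu p q red e D) (fun y M => uu_conj red he.cl D y M)
  rw [← chs_cl] at h2
  have h5 : (∑ᶠ τ : {τ : Set (Subgroup G) // IsPChain p τ}, (-1) ^ τ.1.ncard *
        ((Nat.card (chainStabilizer τ.1) : ℤ) * uu p q red e D (WW q (chainStabilizer τ.1)))) =
      (Nat.card G : ℤ) * ((q : ℤ) ^ 2 * Ss p q red D G e - Sq p q red D G e) := by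
    rw [mul_sub, mul_left_comm, ← sum_Ks red he.cl, ← sum_Kq red he.cl]
    rw [finsum_eq_sum_of_fintype, finsum_eq_sum_of_fintype, finsum_eq_sum_of_fintype,
      Finset.mul_sum, ← Finset.sum_sub_distrib]
    refine Finset.sum_congr rfl fun τ _ => ?_
    rw [uu_WW red he D τ.2]
    ring
  rw [h5] at h2
  have h6 : chs (Sp p (Base q G)) (wt ⊤ (fw p red D (wrF q e) 1)) =
      chs (Sp p (Base q G)) (wt ⊤ fun M => fw p red D (wrF q e) 1 (Base q G ⊓ M)) +
        chs (Sp p (Base q G)) (wt ⊤ (HU (uu p q red e D))) := by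
    rw [chs_eq, chs_eq, chs_eq, ← Finset.sum_add_distrib]
    refine Finset.sum_congr rfl fun σ _ => ?_
    unfold wt
    rw [fw_split red e D (⊤ ⊓ chainStabilizer σ)]
    ring
  have h7 : (Nat.card G : ℤ) ≠ 0 := by exact_mod_cast Nat.card_pos.ne'
  apply mul_left_cancel₀ h7
  rw [h6, h1]
  linear_combination h2

end tn

end Pool.Agent.U259.WD
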